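import Pool.Agent.Q186.DY.Asm
import Pool.Agent.Q96.DY.SM
import Pool.Agent.Q96.DY.EQ

/-!
# Project DY: the dyadic model of the Navier-Stokes equations, main theorem
-/

namespace Pool.Agent.Q186.DY

open Set Filter Topology MeasureTheory

noncomputable section

/-- The right hand side of the dyadic model,
`- ν λ^(2n) X_n + λ^(β(n-1)) X_(n-1)^2 - λ^(β n) X_n X_(n+1)` (the middle term is absent for
`n = 0`). -/
def rhs (lam β ν : ℝ) (X : ℕ → ℝ → ℝ) (n : ℕ) (t : ℝ) : ℝ :=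
  -(ν * lam ^ (2 * n) * X n t)
    + (if n = 0 then 0 else lam ^ (β * ((n : ℝ) - 1)) * X (n - 1) t ^ 2)
    - lam ^ (β * (n : ℝ)) * X n t * X (n + 1) t

/-- `X` is a solution of the dyadic model on `[0,∞)` with data `a` (every component is
differentiable on `[0,∞)`, with a one-sided derivative at `0`, and satisfies its equation). -/
structure IsSol (lam β ν : ℝ) (a : ℕ → ℝ) (X : ℕ → ℝ → ℝ) : Prop where
  init : ∀ n, X n 0 = a n
  ode : ∀ n t, 0 ≤ t → HasDerivWithinAt (X n) (rhs lam β ν X n t) (Ici 0) t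

/-- The critical weight `λ^(β - 4 + (β - 2) n)`. -/
def wt (lam β : ℝ) (n : ℕ) : ℝ := lam ^ ((β - 4) + (β - 2) * (n : ℝ))

/-- The critical variables. -/
def crit (lam β : ℝ) (X : ℕ → ℝ → ℝ) : ℕ → ℝ → ℝ
  | 0 => fun _ => 0
  | m + 1 => fun t => wt lam β m * X m t

/-- The critical data. -/
def critD (lam β : ℝ) (a : ℕ → ℝ) : ℕ → ℝ
  | 0 => 0
  | m + 1 => wt lam β m * a m

variable {lam β ν : ℝ}

lemma wt_pos (hl : 0 < lam) (n : ℕ) : 0 < wt lam β n := Real.rpow_pos_of_pos hl _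

lemma sq_pow (lam : ℝ) (n : ℕ) : (lam ^ 2) ^ n = lam ^ (2 * n) := (pow_mul _ _ _).symm

lemma pow_two_n (_hl : 0 < lam) (n : ℕ) : lam ^ (2 * n) = lam ^ (2 * (n : ℝ)) := by
  rw [← Real.rpow_natCast]; push_cast; rfl

/-- `e_(n+1) λ^(β n) = L^(n+1) e_n^2`. -/
lemma wt_id1 (hl : 0 < lam) (n : ℕ) :
    wt lam β (n + 1) * lam ^ (β * (n : ℝ)) = lam ^ (2 * (n + 1)) * wt lam β n ^ 2 := by
  unfold wt
  rw [pow_two_n hl, ← Real.rpow_add hl, ← Real.rpow_natCast (lam ^ _) 2, ← Real.rpow_mul hl.le,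
    ← Real.rpow_add hl]
  congr 1
  push_cast
  ring

/-- `λ^(β n) = L^n g e_(n+1)`. -/
lemma wt_id2 (hl : 0 < lam) (n : ℕ) :
    lam ^ (β * (n : ℝ)) = lam ^ (2 * n) * (lam ^ (6 - 2 * β) * wt lam β (n + 1)) := by
  unfold wt
  rw [pow_two_n hl, ← Real.rpow_add hl, ← Real.rpow_add hl]
  congr 1
  push_cast
  ring

/-- `(g/L)^(n+1) e_n^2 = λ^(-4)`. -/
lemma wt_id3 (hl : 0 < lam) (n : ℕ) :
    (lam ^ (6 - 2 * β) / lam ^ 2) ^ (n + 1) * wt lam β n ^ 2 = (lam ^ 4)⁻¹ := by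
  unfold wt
  have h1 : lam ^ (6 - 2 * β) / lam ^ 2 = lam ^ (4 - 2 * β) := by
    rw [← Real.rpow_natCast lam 2, ← Real.rpow_sub hl]
    congr 1
    push_cast
    ring
  have h2 : (lam ^ 4)⁻¹ = lam ^ (-4 : ℝ) := by
    rw [Real.rpow_neg hl.le]
    congr 1
    rw [← Real.rpow_natCast lam 4]
    norm_num
  rw [h1, h2, ← Real.rpow_natCast (lam ^ _) (n + 1), ← Real.rpow_mul hl.le,
    ← Real.rpow_natCast (lam ^ _) 2, ← Real.rpow_mul hl.le, ← Real.rpow_add hl]
  congr 1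
  push_cast
  ring

/-- `g^(n+1) e_n^2 = λ^(2n-2)`. -/
lemma wt_id4 (hl : 0 < lam) (n : ℕ) :
    (lam ^ (6 - 2 * β)) ^ (n + 1) * wt lam β n ^ 2 = (lam ^ 2)⁻¹ * lam ^ (2 * n) := by
  unfold wt
  have h2 : (lam ^ 2)⁻¹ = lam ^ (-2 : ℝ) := by
    rw [Real.rpow_neg hl.le]
    congr 1
    rw [← Real.rpow_natCast lam 2]
    norm_num
  rw [h2, pow_two_n hl, ← Real.rpow_natCast (lam ^ _) (n + 1), ← Real.rpow_mul hl.le,
    ← Real.rpow_natCast (lam ^ _) 2, ← Real.rpow_mul hl.le, ← Real.rpow_add hl,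
    ← Real.rpow_add hl]
  congr 1
  push_cast
  ring

lemma crit_rhs (hl : 0 < lam) (X : ℕ → ℝ → ℝ) (n : ℕ) (t : ℝ) :
    wt lam β n * rhs lam β ν X n t =
      (lam ^ 2) ^ n * (crit lam β X n t ^ 2 - crit lam β X (n + 1) t *
        (lam ^ (6 - 2 * β) * crit lam β X (n + 2) t + ν)) := by
  rw [sq_pow]
  have h2 := wt_id2 (β := β) hl n
  cases n with
  | zero =>
    simp only [rhs, crit, if_true]
    rw [h2]
    ring
  | succ m =>
    have h1 := wt_id1 (β := β) hl m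
    simp only [rhs, crit, Nat.succ_ne_zero, if_false, Nat.add_sub_cancel]
    have e : (((m + 1 : ℕ) : ℝ) - 1) = (m : ℝ) := by push_cast; ring
    rw [e, h2]
    have e2 : wt lam β (m + 1) * (-(ν * lam ^ (2 * (m + 1)) * X (m + 1) t)
        + lam ^ (β * (m : ℝ)) * X m t ^ 2
        - lam ^ (2 * (m + 1)) * (lam ^ (6 - 2 * β) * wt lam β (m + 1 + 1)) * X (m + 1) t
          * X (m + 1 + 1) t)
        = -(wt lam β (m + 1) * ν * lam ^ (2 * (m + 1)) * X (m + 1) t)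
        + (wt lam β (m + 1) * lam ^ (β * (m : ℝ))) * X m t ^ 2
        - wt lam β (m + 1) * lam ^ (2 * (m + 1)) * (lam ^ (6 - 2 * β) * wt lam β (m + 1 + 1))
          * X (m + 1) t * X (m + 1 + 1) t := by ring
    rw [e2, h1]
    ring

lemma crit_sys (hl : 0 < lam) {a : ℕ → ℝ} {X : ℕ → ℝ → ℝ} (h : IsSol lam β ν a X) :
    Sys (lam ^ 2) (lam ^ (6 - 2 * β)) ν (crit lam β X) := by
  refine ⟨fun t _ => rfl, fun n t ht => ?_⟩
  have h1 := (h.ode n t ht).const_mul (wt lam β n)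
  rw [crit_rhs hl] at h1
  exact h1

lemma crit_init {a : ℕ → ℝ} {X : ℕ → ℝ → ℝ} (h : IsSol lam β ν a X) (n : ℕ) :
    crit lam β X n 0 = critD lam β a n := by
  cases n with
  | zero => rfl
  | succ m => simp only [crit, critD, h.init]

/-- From the critical variables back to the model. -/
lemma isSol_of_sys (hl : 0 < lam) {a : ℕ → ℝ} {V : ℕ → ℝ → ℝ}
    (h : Sys (lam ^ 2) (lam ^ (6 - 2 * β)) ν V) (h0 : ∀ n, V n 0 = critD lam β a n) :
    IsSol lam β ν a (fun n t => V (n + 1) t / wt lam β n) := by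
  have hw := fun n => (wt_pos (β := β) hl n).ne'
  refine ⟨fun n => ?_, fun n t ht => ?_⟩
  · simp only [h0, critD]
    field_simp [hw n]
  · have h1 := (h.deriv n t ht).div_const (wt lam β n)
    have h2 := crit_rhs (β := β) (ν := ν) hl (fun n t => V (n + 1) t / wt lam β n) n t
    have h3 : ∀ m, crit lam β (fun n t => V (n + 1) t / wt lam β n) m t = V m t := by
      intro m
      cases m with
      | zero => simp only [crit]; rw [h.zero t ht]
      | succ m => simp only [crit]; field_simp [hw m]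
    simp only [h3] at h2
    rw [← h2, mul_div_assoc, mul_comm, div_mul_cancel₀ _ (hw n)] at h1
    exact h1

lemma critD_nonneg (hl : 0 < lam) {a : ℕ → ℝ} (ha : ∀ n, 0 ≤ a n) (n : ℕ) :
    0 ≤ critD lam β a n := by
  cases n with
  | zero => exact le_rfl
  | succ m => exact mul_nonneg (wt_pos hl m).le (ha m)

/-- The energy in both sets of variables. -/
lemma energy_term (hl : 0 < lam) (b : ℕ → ℝ) (n : ℕ) :
    (lam ^ (6 - 2 * β) / lam ^ 2) ^ (n + 1) * critD lam β b (n + 1) ^ 2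
      = (lam ^ 4)⁻¹ * b n ^ 2 := by
  simp only [critD]
  rw [mul_pow, ← mul_assoc, wt_id3 hl]

lemma diss_term (hl : 0 < lam) (b : ℕ → ℝ) (n : ℕ) :
    (lam ^ (6 - 2 * β)) ^ (n + 1) * critD lam β b (n + 1) ^ 2
      = (lam ^ 2)⁻¹ * (lam ^ (2 * n) * b n ^ 2) := by
  simp only [critD]
  rw [mul_pow, ← mul_assoc, wt_id4 hl, mul_assoc]

lemma en_crit (hl : 0 < lam) {a : ℕ → ℝ} (ha2 : Summable fun n => a n ^ 2) :
    En (lam ^ 2) (lam ^ (6 - 2 * β)) (critD lam β a) ((lam ^ 4)⁻¹ * ∑' n, a n ^ 2) := by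
  intro N
  rw [Finset.sum_range_succ']
  simp only [energy_term hl]
  have h0 : (lam ^ (6 - 2 * β) / lam ^ 2) ^ 0 * critD lam β a 0 ^ 2 = 0 := by simp [critD]
  rw [h0, add_zero, ← Finset.mul_sum]
  apply mul_le_mul_of_nonneg_left _ (by positivity)
  exact ha2.sum_le_tsum _ (fun n _ => sq_nonneg _)

/-- Decay of the critical variables gives decay of the original ones. -/
lemma decay_back (hl : 1 < lam) {V : ℕ → ℝ → ℝ} {S : Set ℝ}
    (h : ∀ q : ℝ, 0 < q → q < 1 → ∃ C : ℝ, ∀ n t, t ∈ S → V n t ≤ C * q ^ n) (s : ℝ) :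
    ∃ C : ℝ, ∀ (n : ℕ) t, t ∈ S → lam ^ (s * (n : ℝ)) * (V (n + 1) t / wt lam β n) ≤ C := by
  have hl0 : 0 < lam := by linarith
  set r : ℝ := |s - β + 2| + 1 with hr
  have hr0 : 0 < r := by positivity
  have hrs : s - β + 2 ≤ r := by
    have := le_abs_self (s - β + 2)
    linarith
  have hq1 : lam ^ (-r) < 1 := Real.rpow_lt_one_of_one_lt_of_neg hl (by linarith)
  have hq0 : 0 < lam ^ (-r) := Real.rpow_pos_of_pos hl0 _
  obtain ⟨C, hC⟩ := h (lam ^ (-r)) hq0 hq1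
  refine ⟨|C| * lam ^ (4 - β), fun n t ht => ?_⟩
  have h1 := hC (n + 1) t ht
  have hw := wt_pos (β := β) hl0 n
  have h2 : V (n + 1) t ≤ |C| * (lam ^ (-r)) ^ (n + 1) :=
    h1.trans (mul_le_mul_of_nonneg_right (le_abs_self C) (by positivity))
  have h3 : lam ^ (s * (n : ℝ)) * (V (n + 1) t / wt lam β n) ≤
      lam ^ (s * (n : ℝ)) * (|C| * (lam ^ (-r)) ^ (n + 1) / wt lam β n) := by
    apply mul_le_mul_of_nonneg_left _ (Real.rpow_pos_of_pos hl0 _).le
    exact div_le_div_of_nonneg_right h2 hw.le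
  refine h3.trans ?_
  have h4 : lam ^ (s * (n : ℝ)) * (|C| * (lam ^ (-r)) ^ (n + 1) / wt lam β n) =
      |C| * lam ^ (s * (n : ℝ) + (-r) * ((n : ℝ) + 1) - ((β - 4) + (β - 2) * (n : ℝ))) := by
    unfold wt
    rw [Real.rpow_sub hl0 (s * (n : ℝ) + (-r) * ((n : ℝ) + 1)),
      Real.rpow_add hl0 (s * (n : ℝ)) ((-r) * ((n : ℝ) + 1)),
      ← Real.rpow_natCast (lam ^ (-r)) (n + 1), ← Real.rpow_mul hl0.le]
    push_cast
    ring
  rw [h4]
  apply mul_le_mul_of_nonneg_left _ (abs_nonneg C)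
  apply Real.rpow_le_rpow_of_exponent_le hl.le
  have hn : (0:ℝ) ≤ (n : ℝ) := Nat.cast_nonneg n
  nlinarith [mul_nonneg hn (sub_nonneg.2 hrs)]

/-- Rapid decay of the data in the critical variables. -/
lemma decay_data (hl : 1 < lam) {a : ℕ → ℝ}
    (h : ∀ s : ℝ, ∃ C : ℝ, ∀ n : ℕ, lam ^ (s * (n : ℝ)) * a n ≤ C) :
    ∀ q : ℝ, 0 < q → q < 1 → ∃ C : ℝ, ∀ n, critD lam β a n ≤ C * q ^ n := by
  intro q hq0 hq1
  have hl0 : 0 < lam := by linarith
  have hlog : 0 < Real.log lam := Real.log_pos hl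
  set r : ℝ := - Real.log q / Real.log lam with hr
  have hq : q = lam ^ (-r) := by
    rw [Real.rpow_def_of_pos hl0, hr]
    have : Real.log lam * -(-Real.log q / Real.log lam) = Real.log q := by field_simp
    rw [this, Real.exp_log hq0]
  obtain ⟨C, hC⟩ := h (β - 2 + r)
  refine ⟨|C| * lam ^ (β - 4) / q, fun n => ?_⟩
  cases n with
  | zero => simp only [critD]; positivity
  | succ m =>
    have h1 := hC m
    have h2 : critD lam β a (m + 1) = lam ^ (β - 4) * q ^ m *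
        (lam ^ ((β - 2 + r) * (m : ℝ)) * a m) := by
      simp only [critD, wt]
      rw [hq, ← Real.rpow_natCast (lam ^ (-r)) m, ← Real.rpow_mul hl0.le]
      rw [← mul_assoc, ← Real.rpow_add hl0, ← Real.rpow_add hl0]
      congr 2
      ring
    rw [h2]
    have h3 : |C| * lam ^ (β - 4) / q * q ^ (m + 1) = lam ^ (β - 4) * q ^ m * |C| := by
      rw [pow_succ]; field_simp
    rw [h3]
    apply mul_le_mul_of_nonneg_left (h1.trans (le_abs_self C)) (by positivity)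

/-- **Main theorem.** -/
theorem main (lam β ν : ℝ) (hlam : 2 ≤ lam) (hβ : β ≤ 3) (hν : 0 < ν) (a : ℕ → ℝ)
    (ha : ∀ n, 0 ≤ a n) (ha2 : Summable fun n => a n ^ 2) :
    ∃ X : ℕ → ℝ → ℝ, IsSol lam β ν a X ∧
      (∀ Y : ℕ → ℝ → ℝ, IsSol lam β ν a Y → ∀ n t, 0 ≤ t → Y n t = X n t) ∧
      (∀ n t, 0 ≤ t → 0 ≤ X n t) ∧
      (∀ s t₀ : ℝ, 0 < t₀ → ∃ C : ℝ, ∀ (n : ℕ) (t : ℝ), t₀ ≤ t →
        lam ^ (s * (n : ℝ)) * X n t ≤ C) ∧
      (∀ t, 0 ≤ t → Summable (fun n => X n t ^ 2) ∧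
        IntervalIntegrable (fun r => ∑' n, lam ^ (2 * n) * X n r ^ 2) volume 0 t ∧
        ∑' n, X n t ^ 2 + 2 * ν * ∫ r in (0:ℝ)..t, ∑' n, lam ^ (2 * n) * X n r ^ 2
          = ∑' n, a n ^ 2) ∧
      (∀ t, 0 < t → Summable (fun n => lam ^ (2 * n) * X n t ^ 2)) ∧
      ((∀ s : ℝ, ∃ C : ℝ, ∀ n : ℕ, lam ^ (s * (n : ℝ)) * a n ≤ C) →
        ∀ s : ℝ, ∃ C : ℝ, ∀ (n : ℕ) (t : ℝ), 0 ≤ t → lam ^ (s * (n : ℝ)) * X n t ≤ C) := by
  have hl0 : 0 < lam := by linarith
  have hl1 : 1 < lam := by linarith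
  have hL : 4 ≤ lam ^ 2 := by nlinarith
  have hg : 1 ≤ lam ^ (6 - 2 * β) := Real.one_le_rpow hl1.le (by linarith)
  have hSM := Pool.Agent.Q96.DY.t_SM
  have hEn := en_crit (β := β) hl0 ha2
  obtain ⟨V, hV, hV0⟩ := exists_sys (L := lam ^ 2) (g := lam ^ (6 - 2 * β)) (k := ν)
    (by linarith) hg hν (critD_nonneg (β := β) hl0 ha) rfl hEn
  have hVn : ∀ n t, 0 ≤ t → 0 ≤ V n t :=
    Pool.Agent.Q58.DY.t_NN _ _ _ V (by linarith) hV
      (fun n => by rw [hV0]; exact critD_nonneg hl0 ha n)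
  have hVE : En (lam ^ 2) (lam ^ (6 - 2 * β)) (fun n => V n 0) ((lam ^ 4)⁻¹ * ∑' n, a n ^ 2) := by
    intro N
    simp only [hV0]
    exact hEn N
  have hX := isSol_of_sys hl0 hV hV0
  have hsm := smoothing hSM hL hg hν hV hVn hVE
  -- the value of the critical variables in terms of X
  have hVX : ∀ n t, 0 ≤ t → V n t = critD lam β (fun m => V (m + 1) t / wt lam β m) n := by
    intro n t ht
    cases n with
    | zero => simp only [critD]; exact hV.zero t ht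
    | succ m =>
      have := (wt_pos (β := β) hl0 m).ne'
      simp only [critD]
      field_simp
  -- summability of the shifted series
  have hsumE : ∀ b : ℕ → ℝ, (Summable fun n => (lam ^ (6 - 2 * β) / lam ^ 2) ^ n *
      critD lam β b n ^ 2) ↔ Summable fun n => b n ^ 2 := by
    intro b
    rw [← summable_nat_add_iff 1]
    simp only [energy_term hl0]
    exact summable_mul_left_iff (by positivity)
  have hsumD : ∀ b : ℕ → ℝ, (Summable fun n => (lam ^ (6 - 2 * β)) ^ n *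
      critD lam β b n ^ 2) ↔ Summable fun n => lam ^ (2 * n) * b n ^ 2 := by
    intro b
    rw [← summable_nat_add_iff 1]
    simp only [diss_term hl0]
    exact summable_mul_left_iff (by positivity)
  have htsE : ∀ b : ℕ → ℝ, (Summable fun n => b n ^ 2) →
      ∑' n, (lam ^ (6 - 2 * β) / lam ^ 2) ^ n * critD lam β b n ^ 2
        = (lam ^ 4)⁻¹ * ∑' n, b n ^ 2 := by
    intro b hb
    rw [((hsumE b).2 hb).tsum_eq_zero_add]
    simp only [energy_term hl0]
    rw [tsum_mul_left]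
    simp [critD]
  have htsD : ∀ b : ℕ → ℝ, (Summable fun n => lam ^ (2 * n) * b n ^ 2) →
      ∑' n, (lam ^ (6 - 2 * β)) ^ n * critD lam β b n ^ 2
        = (lam ^ 2)⁻¹ * ∑' n, lam ^ (2 * n) * b n ^ 2 := by
    intro b hb
    rw [((hsumD b).2 hb).tsum_eq_zero_add]
    simp only [diss_term hl0]
    rw [tsum_mul_left]
    simp [critD]
  have hsum0 : Summable fun n => (lam ^ (6 - 2 * β) / lam ^ 2) ^ n * V n 0 ^ 2 := by
    simp only [hV0]
    exact (hsumE a).2 ha2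
  have hEQ := Pool.Agent.Q96.DY.t_EQ (lam ^ 2) (lam ^ (6 - 2 * β)) ν V (by linarith) hg hν hV hVn
    hsum0 hsm
  have hsX : ∀ t, 0 ≤ t → Summable (fun n => (V (n + 1) t / wt lam β n) ^ 2) := by
    intro t ht
    have h1 := (hEQ t ht).1
    refine (hsumE _).1 ?_
    simp only [← hVX _ t ht]
    exact h1
  have hdX : ∀ t, 0 < t → Summable (fun n => lam ^ (2 * n) * (V (n + 1) t / wt lam β n) ^ 2) := by
    intro t ht
    have h1 := (hEQ t ht.le).2.1 t ht
    refine (hsumD _).1 ?_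
    simp only [← hVX _ t ht.le]
    exact h1
  refine ⟨fun n t => V (n + 1) t / wt lam β n, hX, ?_, ?_, ?_, ?_, hdX, ?_⟩
  · -- uniqueness
    intro Y hY n t ht
    have hYs := crit_sys hl0 hY
    have hYn : ∀ n t, 0 ≤ t → 0 ≤ crit lam β Y n t :=
      Pool.Agent.Q58.DY.t_NN _ _ _ _ (by linarith) hYs
        (fun n => by rw [crit_init hY]; exact critD_nonneg hl0 ha n)
    have h1 := uniq hSM hL hg hν hV hYs hVn hYn hVE
      (fun n => by rw [hV0, crit_init hY]) (n + 1) t ht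
    have hw := (wt_pos (β := β) hl0 n).ne'
    simp only [h1, crit]
    field_simp
  · intro n t ht
    exact div_nonneg (hVn _ t ht) (wt_pos hl0 n).le
  · intro s t₀ ht₀
    exact decay_back (S := Ici t₀) hl1 (fun q hq0 hq1 => hsm q t₀ hq0 hq1 ht₀) s
  · intro t ht
    refine ⟨hsX t ht, ?_, ?_⟩
    · have h1 := (hEQ t ht).2.2.1
      have h2 : IntervalIntegrable (fun r => (lam ^ 2) *
          ∑' n, (lam ^ (6 - 2 * β)) ^ n * V n r ^ 2) volume 0 t := h1.const_mul _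
      refine h2.congr ?_
      rw [uIoc_of_le ht]
      intro r hr
      have hr0 : 0 < r := hr.1
      have h3 := htsD _ (hdX r hr0)
      simp only [← hVX _ r hr0.le] at h3
      simp only [h3]
      field_simp
    · have h1 := (hEQ t ht).2.2.2
      have h2 : ∫ r in (0:ℝ)..t, ∑' n, (lam ^ (6 - 2 * β)) ^ n * V n r ^ 2 =
          (lam ^ 2)⁻¹ * ∫ r in (0:ℝ)..t, ∑' n, lam ^ (2 * n) * (V (n + 1) r / wt lam β n) ^ 2 := by
        rw [← intervalIntegral.integral_const_mul]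
        apply intervalIntegral.integral_congr_ae
        rw [uIoc_of_le ht]
        refine Filter.Eventually.of_forall fun r hr => ?_
        have hr0 : 0 < r := hr.1
        have h3 := htsD _ (hdX r hr0)
        simp only [← hVX _ r hr0.le] at h3
        exact h3
      have h4 := htsE _ (hsX t ht)
      simp only [← hVX _ t ht] at h4
      have h5 : ∑' n, (lam ^ (6 - 2 * β) / lam ^ 2) ^ n * V n 0 ^ 2
          = (lam ^ 4)⁻¹ * ∑' n, a n ^ 2 := by
        simp only [hV0]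
        exact htsE a ha2
      rw [h2, h4, h5] at h1
      have hl4 : (lam ^ 4) ≠ 0 := by positivity
      have h6 : (lam ^ 4)⁻¹ * (∑' n, (V (n + 1) t / wt lam β n) ^ 2
          + 2 * ν * ∫ r in (0:ℝ)..t, ∑' n, lam ^ (2 * n) * (V (n + 1) r / wt lam β n) ^ 2)
          = (lam ^ 4)⁻¹ * ∑' n, a n ^ 2 := by
        rw [← h1]
        field_simp
      exact mul_left_cancel₀ (inv_ne_zero hl4) h6
  · intro hdec s
    have hd := decay_data (β := β) hl1 hdec
    have hlim : Tendsto (critD lam β a) atTop (𝓝 0) := by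
      obtain ⟨C, hC⟩ := hd (1/2) (by norm_num) (by norm_num)
      refine squeeze_zero (critD_nonneg hl0 ha) hC ?_
      have := (tendsto_pow_atTop_nhds_zero_of_lt_one (show (0:ℝ) ≤ 1/2 by norm_num)
        (show (1/2:ℝ) < 1 by norm_num)).const_mul C
      simpa using this
    obtain ⟨Z, hZ, hZ0, ⟨M, hM⟩, N2, hN2⟩ := exists_bdd hL hg hν
      (critD_nonneg (β := β) hl0 ha) rfl hlim
    have hZn : ∀ n t, 0 ≤ t → 0 ≤ Z n t :=
      Pool.Agent.Q58.DY.t_NN _ _ _ Z (by linarith) hZ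
        (fun n => by rw [hZ0]; exact critD_nonneg hl0 ha n)
    have heq := eq_of_bdd (by linarith) hg hν hZ hV hZn hVn hM hVE
      (fun n => by rw [hZ0, hV0])
    have h1 := (hSM _ _ _ M N2 Z hL hg hν hZ hZn hM hN2).2
      (by intro q hq0 hq1; simp only [hZ0]; exact hd q hq0 hq1)
    obtain ⟨C, hC⟩ := decay_back (β := β) (V := V) (S := Ici 0) hl1 (fun q hq0 hq1 => by
      obtain ⟨C, hC⟩ := h1 q hq0 hq1
      exact ⟨C, fun n t ht => by rw [← heq n t ht]; exact hC n t ht⟩) s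
    exact ⟨C, fun n t ht => hC n t ht⟩

end

end Pool.Agent.Q186.DY
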