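import Pool.Agent.Q186.DY.Reg2
import Pool.Agent.Q58.DY.BAR
import Pool.Agent.Q58.DY.NN
import Pool.Agent.Q58.DY.EN
import Pool.Agent.Q58.DY.TIME
import Pool.Agent.Q195.DY.CP
import Pool.Agent.Q195.DY.TR
import Pool.Agent.Q96.DY.UNI

/-!
# Project DY: assembly in the critical variables
-/

namespace Pool.Agent.Q186.DY

open Set Filter Topology MeasureTheory

noncomputable section

variable {L g k : ℝ} {V W : ℕ → ℝ → ℝ}

/-- Translation in time. -/
lemma Sys.shift (h : Sys L g k V) {t0 : ℝ} (ht0 : 0 ≤ t0) :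
    Sys L g k (fun n t => V n (t0 + t)) := by
  refine ⟨fun t ht => h.zero _ (by linarith), fun n t ht => ?_⟩
  have h1 := h.deriv n (t0 + t) (by linarith)
  have h2 : HasDerivWithinAt (fun s : ℝ => t0 + s) 1 (Ici 0) t :=
    (hasDerivWithinAt_id t _).const_add t0
  have h3 := h1.comp t h2 (fun s hs => by
    have : (0:ℝ) ≤ s := hs
    show (0:ℝ) ≤ t0 + s
    linarith)
  simpa [Function.comp_def] using h3

/-- The energy of the data. -/
def En (L g : ℝ) (b : ℕ → ℝ) (E : ℝ) : Prop :=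
  ∀ N, ∑ n ∈ Finset.range (N + 1), (g / L) ^ n * b n ^ 2 ≤ E

lemma En_shift (hL : 1 ≤ L) (hg : 1 ≤ g) (hk : 0 < k) (h : Sys L g k V)
    (h0 : ∀ n t, 0 ≤ t → 0 ≤ V n t) {E : ℝ} (hE : En L g (fun n => V n 0) E) {t : ℝ}
    (ht : 0 ≤ t) : En L g (fun n => V n t) E := by
  intro N
  have h1 := Pool.Agent.Q58.DY.en_main L g k V (by linarith) h N t ht
  have h2 : 0 ≤ ∫ s in (0:ℝ)..t, ∑ n ∈ Finset.range (N + 1), g ^ n * V n s ^ 2 :=
    intervalIntegral.integral_nonneg ht fun s _ =>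
      Finset.sum_nonneg fun n _ => by positivity
  have h3 : 0 ≤ ∫ s in (0:ℝ)..t, g ^ N * V N s ^ 2 * V (N + 1) s := by
    refine intervalIntegral.integral_nonneg ht fun s hs => ?_
    have := h0 (N + 1) s hs.1
    positivity
  have h4 := hE N
  have h5 : 0 ≤ 2 * k / L * (∫ s in (0:ℝ)..t, ∑ n ∈ Finset.range (N + 1), g ^ n * V n s ^ 2) :=
    mul_nonneg (by positivity) h2
  have h6 : 0 ≤ 2 * g / L * (∫ s in (0:ℝ)..t, g ^ N * V N s ^ 2 * V (N + 1) s) :=
    mul_nonneg (by positivity) h3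
  linarith

/-- Existence for data of finite energy. -/
theorem exists_sys (hL : 1 ≤ L) (hg : 1 ≤ g) (hk : 0 < k) {a : ℕ → ℝ} (ha : ∀ n, 0 ≤ a n)
    (ha0 : a 0 = 0) {E : ℝ} (hE : En L g a E) :
    ∃ V, Sys L g k V ∧ (∀ n, V n 0 = a n) := by
  have htr := Pool.Agent.Q195.DY.TR.t_TR Pool.Agent.Q58.DY.t_BAR
  choose U hU using fun N : {N : ℕ // 1 ≤ N} => htr L g k N.1 a hL hg hk N.2 ha
  have hE0 : 0 ≤ E := by
    have := hE 0
    have h1 : 0 ≤ ∑ n ∈ Finset.range (0 + 1), (g / L) ^ n * a n ^ 2 :=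
      Finset.sum_nonneg fun n _ => by positivity
    linarith
  let UU : ℕ → ℕ → ℝ → ℝ := fun N => if h : 1 ≤ N then U ⟨N, h⟩ else fun _ _ => 0
  have hUU : ∀ N, 1 ≤ N → Trunc L g k N a (UU N) := by
    intro N hN
    simp only [UU, hN, dif_pos]
    exact hU ⟨N, hN⟩
  obtain ⟨V, φ, hV, hV0, -, -⟩ := Pool.Agent.Q195.DY.t_CP L g k a
    (fun n => Real.sqrt (E * (L / g) ^ n)) UU hL hg hk hUU (by
      intro N n t hN hn ht
      apply Real.le_sqrt_of_sq_le
      have h1 := (hUU N hN).energy t ht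
      have h2 : (g / L) ^ n * UU N n t ^ 2 ≤
          ∑ m ∈ Finset.range (N + 1), (g / L) ^ m * UU N m t ^ 2 :=
        Finset.single_le_sum (f := fun m => (g / L) ^ m * UU N m t ^ 2)
          (fun m _ => by positivity) (Finset.mem_range.2 (by omega))
      have h3 : ∑ m ∈ Finset.range (N + 1), (g / L) ^ m * UU N m 0 ^ 2 =
          ∑ m ∈ Finset.range (N + 1), (g / L) ^ m * a m ^ 2 := by
        apply Finset.sum_congr rfl
        intro m hm
        rcases Nat.eq_zero_or_pos m with rfl | h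
        · rw [(hUU N hN).zero 0 le_rfl, ha0]
        · rw [(hUU N hN).init m h (by simpa [Nat.lt_succ_iff] using hm)]
      have h4 := hE N
      have h5 : (g / L) ^ n * UU N n t ^ 2 ≤ E := by linarith
      have hgL : (0:ℝ) < g / L := by positivity
      have h6 : (L / g) ^ n = ((g / L) ^ n)⁻¹ := by rw [← inv_pow, inv_div]
      rw [h6, ← div_eq_mul_inv, le_div_iff₀ (by positivity)]
      linarith)
  refine ⟨V, hV, fun n => ?_⟩
  rcases Nat.eq_zero_or_pos n with rfl | h
  · rw [hV.zero 0 le_rfl, ha0]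
  · exact hV0 n h

/-- Existence of a bounded solution for data tending to zero. -/
theorem exists_bdd (hL : 4 ≤ L) (hg : 1 ≤ g) (hk : 0 < k) {a : ℕ → ℝ} (ha : ∀ n, 0 ≤ a n)
    (ha0 : a 0 = 0) (hlim : Tendsto a atTop (𝓝 0)) :
    ∃ V, Sys L g k V ∧ (∀ n, V n 0 = a n) ∧ (∃ M, ∀ n t, 0 ≤ t → V n t ≤ M) ∧
      ∃ N2, ∀ n t, N2 ≤ n → 0 ≤ t → V n t ≤ k / 2 := by
  have htr := Pool.Agent.Q195.DY.TR.t_TR Pool.Agent.Q58.DY.t_BAR
  choose U hU using fun N : {N : ℕ // 1 ≤ N} => htr L g k N.1 a (by linarith) hg hk N.2 ha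
  obtain ⟨M, N2, hreg⟩ := t_REG Pool.Agent.Q58.DY.t_BAR L g k a hL hg hk ha hlim
  let UU : ℕ → ℕ → ℝ → ℝ := fun N => if h : 1 ≤ N then U ⟨N, h⟩ else fun _ _ => 0
  have hUU : ∀ N, 1 ≤ N → Trunc L g k N a (UU N) := by
    intro N hN
    simp only [UU, hN, dif_pos]
    exact hU ⟨N, hN⟩
  obtain ⟨V, φ, hV, hV0, hφ, hlimV⟩ := Pool.Agent.Q195.DY.t_CP L g k a (fun _ => M) UU
    (by linarith) hg hk hUU (fun N n t hN hn ht => (hreg N (UU N) hN (hUU N hN) n t hn ht).1)
  refine ⟨V, hV, fun n => ?_, ⟨M, fun n t ht => ?_⟩, N2, fun n t hn ht => ?_⟩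
  · rcases Nat.eq_zero_or_pos n with rfl | h
    · rw [hV.zero 0 le_rfl, ha0]
    · exact hV0 n h
  · refine le_of_tendsto (hlimV n t ht) ?_
    filter_upwards [eventually_ge_atTop (n + 1)] with j hj
    have h1 : j ≤ φ j := hφ.id_le j
    exact (hreg (φ j) (UU (φ j)) (by omega) (hUU _ (by omega)) n t (by omega) ht).1
  · refine le_of_tendsto (hlimV n t ht) ?_
    filter_upwards [eventually_ge_atTop (n + 1)] with j hj
    have h1 : j ≤ φ j := hφ.id_le j
    exact (hreg (φ j) (UU (φ j)) (by omega) (hUU _ (by omega)) n t (by omega) ht).2 hn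

/-- Two bounded solutions (one of them bounded) with the same data coincide. -/
lemma eq_of_bdd (hL : 1 ≤ L) (hg : 1 ≤ g) (hk : 0 < k) (hV : Sys L g k V) (hW : Sys L g k W)
    (hV0 : ∀ n t, 0 ≤ t → 0 ≤ V n t) (hW0 : ∀ n t, 0 ≤ t → 0 ≤ W n t) {M E : ℝ}
    (hM : ∀ n t, 0 ≤ t → V n t ≤ M) (hE : En L g (fun n => W n 0) E)
    (heq : ∀ n, V n 0 = W n 0) : ∀ n t, 0 ≤ t → V n t = W n t := by
  intro n t ht
  have h1 := Pool.Agent.Q96.DY.t_UNI L g k M E 0 V W hL hg hk hV hW hV0 hW0 hM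
    (by intro N; simp only [heq]; exact hE N) hE
    (by intro N; simp [heq]) n t ht
  have h2 : (g / (2 * L)) ^ n * (V n t - W n t) ^ 2 ≤ 0 := by
    refine le_trans ?_ h1
    exact Finset.single_le_sum (f := fun m => (g / (2 * L)) ^ m * (V m t - W m t) ^ 2)
      (fun m _ => by positivity) (Finset.mem_range.2 (by omega))
  have h3 : 0 < (g / (2 * L)) ^ n := by positivity
  have h4 : (V n t - W n t) ^ 2 ≤ 0 := by
    by_contra h
    push Not at h
    have := mul_pos h3 h
    linarith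
  have h5 : V n t - W n t = 0 := by
    have := sq_nonneg (V n t - W n t)
    exact pow_eq_zero_iff (n := 2) (by norm_num) |>.1 (le_antisymm h4 this)
  linarith

/-- Every solution with finite energy is smooth for positive times. -/
theorem smoothing (hSM : P_SM) (hL : 4 ≤ L) (hg : 1 ≤ g) (hk : 0 < k) (hV : Sys L g k V)
    (hV0 : ∀ n t, 0 ≤ t → 0 ≤ V n t) {E : ℝ} (hE : En L g (fun n => V n 0) E) :
    ∀ q t0 : ℝ, 0 < q → q < 1 → 0 < t0 → ∃ C : ℝ, ∀ n t, t0 ≤ t → V n t ≤ C * q ^ n := by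
  intro q t0 hq0 hq1 ht0
  obtain ⟨t1, ht1, ht1', hlim⟩ := Pool.Agent.Q58.DY.t_TIME L g k E (t0 / 2) V (by linarith) hg hk
    hV hV0 hE (by linarith)
  obtain ⟨Z, hZ, hZ0, ⟨M, hM⟩, N2, hN2⟩ := exists_bdd hL hg hk
    (a := fun n => V n t1) (fun n => hV0 n t1 ht1.le) (hV.zero t1 ht1.le) hlim
  have hZn : ∀ n t, 0 ≤ t → 0 ≤ Z n t :=
    Pool.Agent.Q58.DY.t_NN L g k Z (by linarith) hZ (fun n => by rw [hZ0]; exact hV0 n t1 ht1.le)
  have hsh := hV.shift ht1.le
  have heq := eq_of_bdd (by linarith) hg hk hZ hsh hZn (fun n t ht => hV0 n _ (by linarith)) hM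
    (E := E) (by
      have := En_shift (by linarith) hg hk hV hV0 hE ht1.le
      simpa using this) (fun n => by rw [hZ0]; simp)
  obtain ⟨C, hC⟩ := (hSM L g k M N2 Z hL hg hk hZ hZn hM hN2).1 q (t0 / 2) hq0 hq1 (by linarith)
  refine ⟨C, fun n t ht => ?_⟩
  have h1 := hC n (t - t1) (by linarith)
  rw [heq n (t - t1) (by linarith)] at h1
  simpa using h1

/-- Uniqueness in the class of all solutions with finite energy. -/
theorem uniq (hSM : P_SM) (hL : 4 ≤ L) (hg : 1 ≤ g) (hk : 0 < k) (hV : Sys L g k V)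
    (hW : Sys L g k W) (hV0 : ∀ n t, 0 ≤ t → 0 ≤ V n t) (hW0 : ∀ n t, 0 ≤ t → 0 ≤ W n t)
    {E : ℝ} (hE : En L g (fun n => V n 0) E) (heq : ∀ n, V n 0 = W n 0) :
    ∀ n t, 0 ≤ t → V n t = W n t := by
  intro n t ht
  rcases ht.eq_or_lt with rfl | htpos
  · exact heq n
  have hEW : En L g (fun n => W n 0) E := by intro N; simp only [← heq]; exact hE N
  have hL0 : 0 < L := by linarith
  have hE0 : 0 ≤ E := by
    have := hE 0
    have h1 : 0 ≤ ∑ n ∈ Finset.range (0 + 1), (g / L) ^ n * V n 0 ^ 2 :=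
      Finset.sum_nonneg fun n _ => by positivity
    linarith
  -- the weighted difference at time s
  have hkey : ∀ ε : ℝ, 0 < ε → (g / (2 * L)) ^ n * (V n t - W n t) ^ 2 ≤ ε := by
    intro ε hε
    obtain ⟨N1, hN1⟩ := exists_pow_lt_of_lt_one (show 0 < ε / (2 * (4 * E + 1)) by positivity)
      (show (1:ℝ) / 2 < 1 by norm_num)
    -- continuity of the head at time zero
    have hcont : ∀ m, ContinuousWithinAt (V m) (Ici 0) 0 ∧ ContinuousWithinAt (W m) (Ici 0) 0 :=
      fun m => ⟨Pool.Agent.Q58.DY.cont hV m 0 self_mem_Ici, Pool.Agent.Q58.DY.cont hW m 0 self_mem_Ici⟩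
    have hhead : Tendsto (fun s => ∑ m ∈ Finset.range N1,
        (g / (2 * L)) ^ m * (V m s - W m s) ^ 2) (𝓝[Ici 0] 0) (𝓝 0) := by
      have : Tendsto (fun s => ∑ m ∈ Finset.range N1,
        (g / (2 * L)) ^ m * (V m s - W m s) ^ 2) (𝓝[Ici 0] 0)
          (𝓝 (∑ m ∈ Finset.range N1, (g / (2 * L)) ^ m * (V m 0 - W m 0) ^ 2)) := by
        apply tendsto_finsetSum
        intro m _
        exact (((hcont m).1.sub (hcont m).2).pow 2).const_mul _
      simpa [heq] using this
    have hev := hhead.eventually (gt_mem_nhds (show (0:ℝ) < ε / 2 by positivity))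
    have hev2 : ∀ᶠ s in 𝓝[>] (0:ℝ), ∑ m ∈ Finset.range N1,
        (g / (2 * L)) ^ m * (V m s - W m s) ^ 2 < ε / 2 :=
      nhdsWithin_mono 0 Ioi_subset_Ici_self hev
    have hev3 : ∀ᶠ s in 𝓝[>] (0:ℝ), s < t := nhdsWithin_le_nhds (gt_mem_nhds htpos)
    obtain ⟨s, hs1, hs2, hs3⟩ := (hev2.and (hev3.and self_mem_nhdsWithin)).exists
    have hs0 : (0:ℝ) < s := hs3
    -- the tail
    have hVE := En_shift (by linarith) hg hk hV hV0 hE hs0.le
    have hWE := En_shift (by linarith) hg hk hW hW0 hEW hs0.le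
    have hB : ∀ N, ∑ m ∈ Finset.range (N + 1),
        (g / (2 * L)) ^ m * (V m s - W m s) ^ 2 ≤ ε := by
      intro N
      have hterm : ∀ m, N1 ≤ m → (g / (2 * L)) ^ m * (V m s - W m s) ^ 2 ≤
          (1/2) ^ N1 * (2 * ((g / L) ^ m * V m s ^ 2) + 2 * ((g / L) ^ m * W m s ^ 2)) := by
        intro m hm
        have e : (g / (2 * L)) ^ m = (1/2) ^ m * (g / L) ^ m := by
          rw [← mul_pow]; congr 1; field_simp
        rw [e]
        have h1 : ((1:ℝ)/2) ^ m ≤ (1/2) ^ N1 := pow_le_pow_of_le_one (by norm_num) (by norm_num) hm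
        have h2 : (V m s - W m s) ^ 2 ≤ 2 * V m s ^ 2 + 2 * W m s ^ 2 := by
          nlinarith [sq_nonneg (V m s + W m s)]
        have h3 : 0 ≤ (g / L) ^ m := by positivity
        calc (1/2) ^ m * (g / L) ^ m * (V m s - W m s) ^ 2
            ≤ (1/2) ^ N1 * (g / L) ^ m * (2 * V m s ^ 2 + 2 * W m s ^ 2) := by
              gcongr
          _ = _ := by ring
      have hsplit : ∑ m ∈ Finset.range (N + 1), (g / (2 * L)) ^ m * (V m s - W m s) ^ 2 ≤
          ∑ m ∈ Finset.range N1, (g / (2 * L)) ^ m * (V m s - W m s) ^ 2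
          + ∑ m ∈ Finset.range (N + 1), (1/2) ^ N1 *
            (2 * ((g / L) ^ m * V m s ^ 2) + 2 * ((g / L) ^ m * W m s ^ 2)) := by
        have h1 : ∀ m ∈ Finset.range (N + 1), (g / (2 * L)) ^ m * (V m s - W m s) ^ 2 ≤
            (if m < N1 then (g / (2 * L)) ^ m * (V m s - W m s) ^ 2 else 0)
            + (1/2) ^ N1 * (2 * ((g / L) ^ m * V m s ^ 2) + 2 * ((g / L) ^ m * W m s ^ 2)) := by
          intro m _
          have hnn : 0 ≤ (1/2:ℝ) ^ N1 *
            (2 * ((g / L) ^ m * V m s ^ 2) + 2 * ((g / L) ^ m * W m s ^ 2)) := by positivity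
          split_ifs with h
          · linarith
          · have := hterm m (by omega)
            linarith
        refine (Finset.sum_le_sum h1).trans ?_
        rw [Finset.sum_add_distrib]
        apply add_le_add _ le_rfl
        rw [← Finset.sum_filter]
        apply Finset.sum_le_sum_of_subset_of_nonneg
        · intro m hm
          simp only [Finset.mem_filter] at hm
          exact Finset.mem_range.2 hm.2
        · intro m _ _
          positivity
      have htail : ∑ m ∈ Finset.range (N + 1), (1/2:ℝ) ^ N1 *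
            (2 * ((g / L) ^ m * V m s ^ 2) + 2 * ((g / L) ^ m * W m s ^ 2)) ≤
            (1/2) ^ N1 * (4 * E) := by
        rw [← Finset.mul_sum, Finset.sum_add_distrib, ← Finset.mul_sum, ← Finset.mul_sum]
        have h1 := hVE N
        have h2 := hWE N
        apply mul_le_mul_of_nonneg_left _ (by positivity)
        linarith
      have h5 : (1/2:ℝ) ^ N1 * (4 * E) ≤ ε / 2 := by
        have h6 : (1/2:ℝ) ^ N1 * (4 * E) ≤ ε / (2 * (4 * E + 1)) * (4 * E + 1) := by
          apply mul_le_mul hN1.le (by linarith) (by positivity) (by positivity)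
        have h7 : ε / (2 * (4 * E + 1)) * (4 * E + 1) = ε / 2 := by field_simp
        linarith
      linarith
    -- stability from time s
    obtain ⟨C, hC⟩ := smoothing hSM hL hg hk hV hV0 hE (1/2) s (by norm_num) (by norm_num) hs0
    have hC0 : 0 ≤ C := by
      have h1 := hC 0 s le_rfl
      have h2 := hV0 0 s hs0.le
      simp at h1
      linarith
    have h1 := Pool.Agent.Q96.DY.t_UNI L g k C E ε (fun n r => V n (s + r))
      (fun n r => W n (s + r)) (by linarith) hg hk (hV.shift hs0.le) (hW.shift hs0.le)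
      (fun n r hr => hV0 n _ (by linarith)) (fun n r hr => hW0 n _ (by linarith))
      (fun n r hr => by
        refine (hC n (s + r) (by linarith)).trans ?_
        have : ((1:ℝ)/2) ^ n ≤ 1 := pow_le_one₀ (by norm_num) (by norm_num)
        nlinarith)
      (by simpa [En] using hVE) (by simpa [En] using hWE) (by simpa using hB) n (t - s) (by linarith)
    have h2 : (g / (2 * L)) ^ n * (V n t - W n t) ^ 2 ≤
        ∑ m ∈ Finset.range (n + 1), (g / (2 * L)) ^ m * (V m t - W m t) ^ 2 :=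
      Finset.single_le_sum (f := fun m => (g / (2 * L)) ^ m * (V m t - W m t) ^ 2)
        (fun m _ => by positivity) (Finset.mem_range.2 (by omega))
    have e : s + (t - s) = t := by ring
    simp only [e] at h1
    linarith
  have h3 : (g / (2 * L)) ^ n * (V n t - W n t) ^ 2 ≤ 0 :=
    le_of_forall_pos_le_add (fun ε hε => by have := hkey ε hε; linarith)
  have h4 : 0 < (g / (2 * L)) ^ n := by positivity
  have h5 : (V n t - W n t) ^ 2 ≤ 0 := by
    by_contra h
    push Not at h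
    have := mul_pos h4 h
    linarith
  have h6 : V n t - W n t = 0 := by
    have := sq_nonneg (V n t - W n t)
    exact pow_eq_zero_iff (n := 2) (by norm_num) |>.1 (le_antisymm h5 this)
  linarith

end

end Pool.Agent.Q186.DY
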