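import Pool.Agent.Q186.DY.PolyU

/-!
# Project DY: the barrier inequalities in normalized variables
-/

namespace Pool.Agent.Q186.DY

noncomputable section

lemma PhJ_eq {y p : ℝ} (hy : 0 < y) : y^2 * PhI ((1-y-p)/y) y p = PhJ y p := by
  unfold PhI PhJ UU
  field_simp
  ring

lemma AL_conc {u y p d D : ℝ} (hu : u = UU y p) (hu0 : 0 ≤ u) (hD : 0 < D) (hd0 : 0 ≤ d)
    (hd : d ≤ D) (h0 : 0 ≤ AL 0 y p) (h1 : 0 ≤ AL D y p) : 0 ≤ AL d y p := by
  have e : D * AL d y p = (D - d) * AL 0 y p + d * AL D y p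
      + 53/1000 * UU y p * d * (D - d) * D := by
    unfold AL; ring
  rw [← hu] at e
  have h2 : 0 ≤ D - d := by linarith
  have h3 : 0 ≤ D * AL d y p := by rw [e]; positivity
  exact nonneg_of_mul_nonneg_right h3 hD

lemma PhI_conc {y p d d0 d1 m : ℝ} (hu0 : 0 ≤ UU y p) (h01 : d0 < d1) (hd0 : d0 ≤ d)
    (hd : d ≤ d1) (h0 : m ≤ PhI d0 y p) (h1 : m ≤ PhI d1 y p) : m ≤ PhI d y p := by
  have e : (d1 - d0) * (PhI d y p - m) = (d1 - d) * (PhI d0 y p - m) + (d - d0) * (PhI d1 y p - m)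
      + 53/250 * UU y p * (d - d0) * (d1 - d) * (d1 - d0) := by
    unfold PhI; ring
  have h2 : 0 ≤ d1 - d := by linarith
  have h3 : 0 ≤ d - d0 := by linarith
  have h4 : 0 < d1 - d0 := by linarith
  have h5 : 0 ≤ PhI d0 y p - m := by linarith
  have h6 : 0 ≤ PhI d1 y p - m := by linarith
  have h7 : 0 ≤ (d1 - d0) * (PhI d y p - m) := by rw [e]; positivity
  have := nonneg_of_mul_nonneg_right h7 h4
  linarith

lemma PhII_conc {y p d d1 m : ℝ} (hu0 : 0 ≤ UU y p) (h01 : 0 < d1) (hd0 : 0 ≤ d)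
    (hd : d ≤ d1) (h0 : m ≤ PhII 0 y p) (h1 : m ≤ PhII d1 y p) : m ≤ PhII d y p := by
  have e : d1 * (PhII d y p - m) = (d1 - d) * (PhII 0 y p - m) + d * (PhII d1 y p - m)
      + 53/250 * UU y p * d * (d1 - d) * d1 := by
    unfold PhII; ring
  have h2 : 0 ≤ d1 - d := by linarith
  have h5 : 0 ≤ PhII 0 y p - m := by linarith
  have h6 : 0 ≤ PhII d1 y p - m := by linarith
  have h7 : 0 ≤ d1 * (PhII d y p - m) := by rw [e]; positivity
  have := nonneg_of_mul_nonneg_right h7 h01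
  linarith

/-- The lower barrier in normalized variables. -/
theorem LB {γ κ y z w x2 L : ℝ} (hL : 4 ≤ L) (hγ : 1 ≤ γ) (hκ : 0 < κ) (hy0 : 0 ≤ y)
    (hy1 : y ≤ 1) (hz : 0 ≤ z) (hw0 : 0 ≤ w) (hw1 : w ≤ 1)
    (hw : w ≤ 19/40 + 21/40*z + 3/50*κ + 53/1000*(γ-1))
    (heq : γ*z + 97/100*κ = 109/100*y^2 - 9/100)
    (hx1 : x2 ≤ 1 + 3/100*κ)
    (hx2 : γ*y + 97/100*κ ≤ 1 → 109/100*x2 ≤ γ*y + 97/100*κ + 9/100 + 109/100*(3/100*κ)) :
    109/50*y*(x2 - y*(γ*z+κ)) < L*(γ*(y^2 - z*(γ*w+κ))) := by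
  obtain ⟨p, hp⟩ : ∃ p : ℝ, p = 97/100*κ := ⟨_, rfl⟩
  obtain ⟨d, hd⟩ : ∃ d : ℝ, d = γ - 1 := ⟨_, rfl⟩
  have hp0 : 0 < p := by rw [hp]; positivity
  have hκp : κ = 100/97*p := by rw [hp]; ring
  have hγd : γ = 1 + d := by rw [hd]; ring
  have hd0 : 0 ≤ d := by linarith
  have hu : γ*z = UU y p := by unfold UU; rw [hp]; linarith
  have hu0 : 0 ≤ UU y p := by rw [← hu]; positivity
  have hp1 : p ≤ 1 := by unfold UU at hu0; nlinarith
  have hy7 : 7/25 ≤ y := by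
    unfold UU at hu0
    by_contra hlt
    push Not at hlt
    nlinarith
  have hypos : 0 < y := by linarith
  have hyu : 0 ≤ y^2 - UU y p := by unfold UU; nlinarith
  have hzu : z*(γ*w+κ)*γ = UU y p*(γ*w+κ) := by rw [← hu]; ring
  -- it suffices to prove two inequalities
  suffices H : 0 ≤ γ*(y^2 - z*(γ*w+κ)) ∧
      109/50*y*(x2 - y*(γ*z+κ)) < 4*(γ*(y^2 - z*(γ*w+κ))) by
    obtain ⟨h1, h2⟩ := H
    nlinarith
  have e1 : γ*(y^2 - z*(γ*w+κ)) = γ*y^2 - UU y p*(γ*w+κ) := by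
    rw [← hzu]; ring
  rw [e1, hu]
  rcases le_or_gt (97/10) γ with hbig | hsmall
  · -- large γ
    have hw2 : UU y p*(γ*w+κ) ≤ UU y p*(γ+κ) := by
      apply mul_le_mul_of_nonneg_left _ hu0
      nlinarith
    have hWp := PhW_pos hy7 hy1 hp0.le hp1
    have hmono : PhW (97/10) y p ≤ PhW γ y p := by
      unfold PhW
      nlinarith
    have hx : 109/50*y*x2 ≤ 109/50*y*(1+3/100*κ) :=
      mul_le_mul_of_nonneg_left hx1 (by positivity)
    have hWdef : PhW γ y p = 4*γ*(y^2-UU y p) - 4*UU y p*κ - 109/50*y*(1+3/100*κ)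
        + 109/50*y^2*(UU y p+κ) := by
      unfold PhW; rw [hκp]; ring
    constructor
    · -- bracket
      have hu1 : UU y p ≤ 1 := by unfold UU; nlinarith
      have h3 : UU y p * κ ≤ κ := by nlinarith
      have h4 : 9/100*(1-y^2) + p = y^2 - UU y p := by unfold UU; ring
      have h5 : p ≤ y^2 - UU y p := by nlinarith
      nlinarith
    · nlinarith
  · -- small γ
    have hd1 : d ≤ 87/10 := by linarith
    have hw2 : UU y p*(γ*w+κ) ≤
        UU y p*((1+d)*(19/40+3/50*(100/97*p)+53/1000*d)+21/40*UU y p+100/97*p) := by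
      apply mul_le_mul_of_nonneg_left _ hu0
      have h3 : γ*w ≤ γ*(19/40 + 21/40*z + 3/50*κ + 53/1000*(γ-1)) :=
        mul_le_mul_of_nonneg_left hw (by linarith)
      have h4 : γ*(19/40 + 21/40*z + 3/50*κ + 53/1000*(γ-1)) + κ =
          (1+d)*(19/40+3/50*(100/97*p)+53/1000*d)+21/40*UU y p+100/97*p := by
        rw [← hu, hd, hκp]; ring
      linarith
    have hAL : AL d y p ≤ γ*y^2 - UU y p*(γ*w+κ) := by
      unfold AL; rw [hγd] at *; linarith
    have hxI : 109/50*y*x2 ≤ 109/50*y*(1+3/100*κ) :=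
      mul_le_mul_of_nonneg_left hx1 (by positivity)
    have hI : PhI d y p ≤ 4*(γ*y^2 - UU y p*(γ*w+κ)) - 109/50*y*(x2 - y*(UU y p+κ)) := by
      have h5 : PhI d y p = 4*AL d y p - 109/50*y*(1+3/100*κ) + 109/50*y^2*(UU y p+κ) := by
        unfold PhI AL; rw [hκp]; ring
      rw [h5]; nlinarith
    rcases le_or_gt (1-y) p with hc | hc
    · -- case 1 - y ≤ p
      obtain ⟨t, ht0, ht1, ht⟩ : ∃ t : ℝ, 0 ≤ t ∧ t ≤ 1 ∧ 1 - p*t = y := by
        refine ⟨(1-y)/p, by have : 0 ≤ 1 - y := by linarith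
                            positivity, (div_le_one hp0).2 hc, ?_⟩
        field_simp
        ring
      have h6 := PhI_zero hp0.le hp1 ht0 ht1
      rw [ht] at h6
      have h7 := PhI_big hy7 hy1 hp0.le hp1
      have h8 := PhI_conc hu0 (by norm_num : (0:ℝ) < 87/10) hd0 hd1 h6 h7
      have h9 := AL_zero_b hp0.le hp1 ht0 ht1
      rw [ht] at h9
      have h10 := AL_conc rfl hu0 (by norm_num : (0:ℝ) < 87/10) hd0 hd1 h9
        (AL_big hy7 hy1 hp0.le hp1)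
      constructor
      · linarith
      · linarith
    · -- case p < 1 - y
      obtain ⟨s, hs⟩ : ∃ s : ℝ, s = 1 - y := ⟨_, rfl⟩
      have hspos : 0 < s := by rw [hs]; linarith
      have hs1 : s ≤ 18/25 := by rw [hs]; linarith
      obtain ⟨t, ht0, ht1, ht⟩ : ∃ t : ℝ, 0 ≤ t ∧ t ≤ 1 ∧ s*t = p := by
        refine ⟨p/s, by positivity, (div_le_one hspos).2 (by rw [hs]; exact hc.le), ?_⟩
        field_simp
      have hys : 1 - s = y := by rw [hs]; ring
      have h6 := PhII_zero hspos.le hs1 ht0 ht1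
      rw [hys, ht] at h6
      have h7 := PhJ_pos hspos.le hs1 ht0 ht1
      rw [hys, ht, ← PhJ_eq hypos] at h7
      have h8 : 1/100*p ≤ PhI ((1-y-p)/y) y p := by
        have h9 : 0 < y^2 := by positivity
        nlinarith
      have h9 := AL_zero_a hspos.le hs1 ht0 ht1
      rw [hys, ht] at h9
      have h10 := AL_conc rfl hu0 (by norm_num : (0:ℝ) < 87/10) hd0 hd1 h9
        (AL_big hy7 hy1 hp0.le hp1)
      refine ⟨by linarith, ?_⟩
      obtain ⟨d1, hd1def⟩ : ∃ d1 : ℝ, d1 = (1-y-p)/y := ⟨_, rfl⟩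
      have hd1y : y*d1 = 1-y-p := by rw [hd1def]; field_simp
      have hd1pos : 0 < d1 := by rw [hd1def]; apply div_pos _ hypos; linarith
      rw [← hd1def] at h8
      rcases le_or_gt d d1 with hdd | hdd
      · -- the estimate by the previous shell
        have hle : γ*y + 97/100*κ ≤ 1 := by
          rw [hγd, ← hp]; nlinarith
        have hx := hx2 hle
        have hJ : PhII d1 y p = PhI d1 y p := by
          have h11 : PhII d1 y p - PhI d1 y p = 2*y*(1-(y+y*d1)-p) := by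
            unfold PhII PhI; ring
          rw [hd1y] at h11
          linarith [h11, show 2*y*(1-(y+(1-y-p))-p) = 0 by ring]
        rw [← hJ] at h8
        have h12 := PhII_conc hu0 hd1pos hd0 hdd h6 h8
        have h13 : PhII d y p ≤ 4*(γ*y^2 - UU y p*(γ*w+κ)) - 109/50*y*(x2 - y*(UU y p+κ)) := by
          have h14 : PhII d y p = 4*AL d y p - 2*y*(γ*y+97/100*κ+9/100) - 109/50*y*(3/100*κ)
              + 109/50*y^2*(UU y p+κ) := by
            unfold PhII AL; rw [hγd, hκp]; ring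
          have h15 : 2*y*(109/100*x2) ≤ 2*y*(γ*y + 97/100*κ + 9/100 + 109/100*(3/100*κ)) :=
            mul_le_mul_of_nonneg_left hx (by positivity)
          rw [h14]; nlinarith
        linarith
      · have h11 : d1 < 87/10 := lt_of_lt_of_le hdd hd1
        have h12 := PhI_conc hu0 h11 hdd.le hd1 h8 (PhI_big hy7 hy1 hp0.le hp1)
        linarith

/-- The upper barrier in normalized variables. -/
theorem UB {γ κ y z pn x L : ℝ} (hL : 4 ≤ L) (hγ : 1 ≤ γ) (hκ : 0 < κ) (hy0 : 0 ≤ y)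
    (hz1 : z ≤ 1) (hz0 : 0 ≤ z)
    (heq : z = 19/40 + 21/40*y + 3/50*κ + 53/1000*(γ-1))
    (hp : 109/100*z^2 - 9/100 + 3/100*κ ≤ pn) (hx0 : 0 ≤ x)
    (hx : y ≤ 19/40 + 53/1000*(γ-1) + 7/100*κ + 21/40*x) :
    L*(y^2 - z*pn) < 21/40*(x^2 - y*(γ*z+κ)) := by
  obtain ⟨T, hT⟩ : ∃ T : ℝ, T = 40/21*(1-z) := ⟨_, rfl⟩
  obtain ⟨K, hK⟩ : ∃ K : ℝ, K = 4/35*κ := ⟨_, rfl⟩
  obtain ⟨D, hD⟩ : ∃ D : ℝ, D = 53/525*(γ-1) := ⟨_, rfl⟩
  have hT0 : 0 ≤ T := by rw [hT]; linarith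
  have hK0 : 0 < K := by rw [hK]; positivity
  have hD0 : 0 ≤ D := by rw [hD]; linarith
  have hsum : T + K + D + y = 1 := by rw [hT, hK, hD]; linarith
  have hz : z = ZU T := by unfold ZU; rw [hT]; ring
  have hκ' : κ = 35/4*K := by rw [hK]; ring
  have hγ' : γ = 1 + 525/53*D := by rw [hD]; ring
  have hp' : PU T K ≤ pn := by unfold PU; rw [← hz, ← hκ']; exact hp
  have hzp : z*PU T K ≤ z*pn := mul_le_mul_of_nonneg_left hp' hz0
  have hA := AU_pos hT0 hK0.le hD0 hy0 hsum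
  rw [← hz] at hA
  have hxm : 1 - 40/21*(T+K+D) - D - 7/6*K ≤ x := by
    rw [hT, hK, hD]; linarith
  have hmain : 21/40*(y*(γ*z+κ)) - 21/40*x^2 < 4*(z*PU T K - y^2) := by
    rcases le_or_gt 0 (1 - 40/21*(T+K+D) - D - 7/6*K) with h0 | h0
    · have h1 := FA_pos hT0 hK0.le hD0 hy0 hsum
      rw [← hz, ← hκ', ← hγ'] at h1
      have h2 : (1 - 40/21*(T+K+D) - D - 7/6*K)^2 ≤ x^2 := by
        apply pow_le_pow_left₀ h0 hxm
      nlinarith
    · have h1 := FB_pos hT0 hK0.le hD0 hy0 hsum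
      rw [← hz, ← hκ', ← hγ'] at h1
      have h2 : 21/40*y^2*(1 - 40/21*(T+K+D) - D - 7/6*K) ≤ 0 := by
        apply mul_nonpos_of_nonneg_of_nonpos (by positivity) h0.le
      nlinarith [sq_nonneg x]
  nlinarith

end

end Pool.Agent.Q186.DY
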