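import Mathlib

/-!
# Project DY: polynomial inequalities of the invariant region

The constants are `b = 9/100`, `q = 21/40`, `c = 3/50`, `c2 = 53/1000`, `η = 1/100`. The identities are
expansions in Bernstein polynomials with positive coefficients.
-/

namespace Pool.Agent.Q186.DY

noncomputable section

/-- `g z` on the lower barrier. -/
def UU (y p : ℝ) : ℝ := 109/100*y^2 - 9/100 - p

/-- The lower barrier, `x^2` estimated by the bound `1`. -/
def PhI (d y p : ℝ) : ℝ :=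
  4*(1+d)*y^2 - 4*UU y p*((1+d)*(19/40+3/50*(100/97*p)+53/1000*d)+21/40*UU y p+100/97*p)
    - 109/50*y*(1+3/97*p) + 109/50*y^2*(UU y p+100/97*p)

/-- The lower barrier, `x^2` estimated by the previous shell. -/
def PhII (d y p : ℝ) : ℝ :=
  4*(1+d)*y^2 - 4*UU y p*((1+d)*(19/40+3/50*(100/97*p)+53/1000*d)+21/40*UU y p+100/97*p)
    - 2*y*((1+d)*y+p+9/100) - 109/50*y*(3/97*p) + 109/50*y^2*(UU y p+100/97*p)

/-- The lower barrier, `w ≤ 1`. -/
def PhW (g y p : ℝ) : ℝ :=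
  4*g*(y^2-UU y p) - 4*UU y p*(100/97*p) - 109/50*y*(1+3/97*p) + 109/50*y^2*(UU y p+100/97*p)

/-- `y^2` times `PhI` at `d = (1-y-p)/y`. -/
def PhJ (y p : ℝ) : ℝ :=
  4*(1-p)*y^3 - 4*UU y p*((1-p)*((19/40)+3/50*(100/97*p))*y+53/1000*(1-p)*(1-y-p)
    +(21/40*UU y p+100/97*p)*y^2) + 109/50*y^4*(UU y p+100/97*p) - 109/50*y^3*(1+3/97*p)

/-- The bracket of the lower barrier. -/
def AL (d y p : ℝ) : ℝ :=
  (1+d)*y^2 - UU y p*((1+d)*(19/40+3/50*(100/97*p)+53/1000*d)+21/40*UU y p+100/97*p)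

lemma PhII_zero {s t : ℝ} (hs : 0 ≤ s) (hs1 : s ≤ 18/25) (ht : 0 ≤ t) (ht1 : t ≤ 1) :
    1/100*(s*t) ≤ PhII 0 (1-s) (s*t) := by
  have h1 : 0 ≤ 18/25 - s := by linarith
  have h2 : 0 ≤ 1 - t := by linarith
  have e : PhII 0 (1-s) (s*t) - 1/100*(s*t) = s*(11425/11664*(18/25-s)^3*(1-t)^2 +
      2728525/2262816*(18/25-s)^3*t*(1-t) +
      512075/2262816*(18/25-s)^3*t^2 +
      71647/38880*s*(18/25-s)^2*(1-t)^2 +
      22151243/3771360*s*(18/25-s)^2*t*(1-t) +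
      1982749/235710*s*(18/25-s)^2*t^2 +
      683837/486000*s^2*(18/25-s)*(1-t)^2 +
      875363981/94284000*s^2*(18/25-s)*t*(1-t) +
      1568824603/94284000*s^2*(18/25-s)*t^2 +
      15491213/36450000*s^3*(1-t)^2 +
      30965076269/7071300000*s^3*t*(1-t) +
      58939468447/7071300000*s^3*t^2) := by
    unfold PhII UU; ring
  have e2 : 0 ≤ s*(11425/11664*(18/25-s)^3*(1-t)^2 +
      2728525/2262816*(18/25-s)^3*t*(1-t) +
      512075/2262816*(18/25-s)^3*t^2 +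
      71647/38880*s*(18/25-s)^2*(1-t)^2 +
      22151243/3771360*s*(18/25-s)^2*t*(1-t) +
      1982749/235710*s*(18/25-s)^2*t^2 +
      683837/486000*s^2*(18/25-s)*(1-t)^2 +
      875363981/94284000*s^2*(18/25-s)*t*(1-t) +
      1568824603/94284000*s^2*(18/25-s)*t^2 +
      15491213/36450000*s^3*(1-t)^2 +
      30965076269/7071300000*s^3*t*(1-t) +
      58939468447/7071300000*s^3*t^2) := by
    positivity
  rw [← e] at e2
  linarith

lemma PhI_zero {s t : ℝ} (hs : 0 ≤ s) (hs1 : s ≤ 1) (ht : 0 ≤ t) (ht1 : t ≤ 1) :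
    1/100*s ≤ PhI 0 (1-s*t) s := by
  have h1 : 0 ≤ 1 - s := by linarith
  have h2 : 0 ≤ 1 - t := by linarith
  have e : PhI 0 (1-s*t) s - 1/100*s = s*(16673/9700*(1-s)^3*(1-t)^4 +
      635479/121250*(1-s)^3*t*(1-t)^3 +
      327981/60625*(1-s)^3*t^2*(1-t)^2 +
      239137/121250*(1-s)^3*t^3*(1-t) +
      20483/242500*(1-s)^3*t^4 +
      72049/9700*s*(1-s)^2*(1-t)^4 +
      3044997/121250*s*(1-s)^2*t*(1-t)^3 +
      78098823/2425000*s*(1-s)^2*t^2*(1-t)^2 +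
      22773413/1212500*s*(1-s)^2*t^3*(1-t) +
      10335693/2425000*s*(1-s)^2*t^4 +
      94079/9700*s^2*(1-s)*(1-t)^4 +
      4183557/121250*s^2*(1-s)*t*(1-t)^3 +
      29137769/606250*s^2*(1-s)*t^2*(1-t)^2 +
      77320189/2425000*s^2*(1-s)*t^3*(1-t) +
      20920503/2425000*s^2*(1-s)*t^4 +
      399/100*s^3*(1-t)^4 +
      1774039/121250*s^3*t*(1-t)^3 +
      51571493/2425000*s^3*t^2*(1-t)^2 +
      36556103/2425000*s^3*t^3*(1-t) +
      42006103/9700000*s^3*t^4) := by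
    unfold PhI UU; ring
  have e2 : 0 ≤ s*(16673/9700*(1-s)^3*(1-t)^4 +
      635479/121250*(1-s)^3*t*(1-t)^3 +
      327981/60625*(1-s)^3*t^2*(1-t)^2 +
      239137/121250*(1-s)^3*t^3*(1-t) +
      20483/242500*(1-s)^3*t^4 +
      72049/9700*s*(1-s)^2*(1-t)^4 +
      3044997/121250*s*(1-s)^2*t*(1-t)^3 +
      78098823/2425000*s*(1-s)^2*t^2*(1-t)^2 +
      22773413/1212500*s*(1-s)^2*t^3*(1-t) +
      10335693/2425000*s*(1-s)^2*t^4 +
      94079/9700*s^2*(1-s)*(1-t)^4 +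
      4183557/121250*s^2*(1-s)*t*(1-t)^3 +
      29137769/606250*s^2*(1-s)*t^2*(1-t)^2 +
      77320189/2425000*s^2*(1-s)*t^3*(1-t) +
      20920503/2425000*s^2*(1-s)*t^4 +
      399/100*s^3*(1-t)^4 +
      1774039/121250*s^3*t*(1-t)^3 +
      51571493/2425000*s^3*t^2*(1-t)^2 +
      36556103/2425000*s^3*t^3*(1-t) +
      42006103/9700000*s^3*t^4) := by
    positivity
  rw [← e] at e2
  linarith

lemma PhI_big {y p : ℝ} (hs : 7/25 ≤ y) (hs1 : y ≤ 1) (ht : 0 ≤ p) (ht1 : p ≤ 1) :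
    1/100*p ≤ PhI (87/10) y p := by
  have h0 : 0 ≤ y - 7/25 := by linarith
  have h1 : 0 ≤ 1 - y := by linarith
  have h2 : 0 ≤ 1 - p := by linarith
  have e : PhI (87/10) y p - 1/100*p = 8449678337/874800000*(1-y)^4*(1-p)^2 +
      39310698276509/254566800000*(1-y)^4*p*(1-p) +
      760042066073/4714200000*(1-y)^4*p^2 +
      1116475127/34992000*(y-7/25)*(1-y)^3*(1-p)^2 +
      3056580665707/5091336000*(y-7/25)*(1-y)^3*p*(1-p) +
      717637313273/1131408000*(y-7/25)*(1-y)^3*p^2 +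
      53291831/1458000*(y-7/25)^2*(1-y)^2*(1-p)^2 +
      1471959189443/1697112000*(y-7/25)^2*(1-y)^2*p*(1-p) +
      175282742851/188568000*(y-7/25)^2*(1-y)^2*p^2 +
      22162559/1399680*(y-7/25)^3*(1-y)*(1-p)^2 +
      112199483419/203653440*(y-7/25)^3*(1-y)*p*(1-p) +
      3021832249/5028480*(y-7/25)^3*(1-y)*p^2 +
      395125/279936*(y-7/25)^4*(1-p)^2 +
      10532262625/81461376*(y-7/25)^4*p*(1-p) +
      6734375/46656*(y-7/25)^4*p^2 := by
    unfold PhI UU; ring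
  have e2 : 0 ≤ 8449678337/874800000*(1-y)^4*(1-p)^2 +
      39310698276509/254566800000*(1-y)^4*p*(1-p) +
      760042066073/4714200000*(1-y)^4*p^2 +
      1116475127/34992000*(y-7/25)*(1-y)^3*(1-p)^2 +
      3056580665707/5091336000*(y-7/25)*(1-y)^3*p*(1-p) +
      717637313273/1131408000*(y-7/25)*(1-y)^3*p^2 +
      53291831/1458000*(y-7/25)^2*(1-y)^2*(1-p)^2 +
      1471959189443/1697112000*(y-7/25)^2*(1-y)^2*p*(1-p) +
      175282742851/188568000*(y-7/25)^2*(1-y)^2*p^2 +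
      22162559/1399680*(y-7/25)^3*(1-y)*(1-p)^2 +
      112199483419/203653440*(y-7/25)^3*(1-y)*p*(1-p) +
      3021832249/5028480*(y-7/25)^3*(1-y)*p^2 +
      395125/279936*(y-7/25)^4*(1-p)^2 +
      10532262625/81461376*(y-7/25)^4*p*(1-p) +
      6734375/46656*(y-7/25)^4*p^2 := by
    positivity
  rw [← e] at e2
  linarith

lemma PhW_pos {y p : ℝ} (hs : 7/25 ≤ y) (hs1 : y ≤ 1) (ht : 0 ≤ p) (ht1 : p ≤ 1) :
    1/100*p ≤ PhW (97/10) y p := by
  have h0 : 0 ≤ y - 7/25 := by linarith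
  have h1 : 0 ≤ 1 - y := by linarith
  have h2 : 0 ≤ 1 - p := by linarith
  have e : PhW (97/10) y p - 1/100*p = 23573591/2430000*(1-y)^4*(1-p)^2 +
      4168844675507/25456680000*(1-y)^4*p*(1-p) +
      159722693933/942840000*(1-y)^4*p^2 +
      1813693/64800*(y-7/25)*(1-y)^3*(1-p)^2 +
      159510434651/254566800*(y-7/25)*(1-y)^3*p*(1-p) +
      37335631489/56570400*(y-7/25)*(1-y)^3*p^2 +
      1685/81*(y-7/25)^2*(1-y)^2*(1-p)^2 +
      5965386485/6788448*(y-7/25)^2*(1-y)^2*p*(1-p) +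
      716574445/754272*(y-7/25)^2*(1-y)^2*p^2 +
      1075/7776*(y-7/25)^3*(1-y)*(1-p)^2 +
      5500335425/10182672*(y-7/25)^3*(1-y)*p*(1-p) +
      453624275/754272*(y-7/25)^3*(1-y)*p^2 +
      5254109375/40730688*(y-7/25)^4*p*(1-p) +
      6734375/46656*(y-7/25)^4*p^2 := by
    unfold PhW UU; ring
  have e2 : 0 ≤ 23573591/2430000*(1-y)^4*(1-p)^2 +
      4168844675507/25456680000*(1-y)^4*p*(1-p) +
      159722693933/942840000*(1-y)^4*p^2 +
      1813693/64800*(y-7/25)*(1-y)^3*(1-p)^2 +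
      159510434651/254566800*(y-7/25)*(1-y)^3*p*(1-p) +
      37335631489/56570400*(y-7/25)*(1-y)^3*p^2 +
      1685/81*(y-7/25)^2*(1-y)^2*(1-p)^2 +
      5965386485/6788448*(y-7/25)^2*(1-y)^2*p*(1-p) +
      716574445/754272*(y-7/25)^2*(1-y)^2*p^2 +
      1075/7776*(y-7/25)^3*(1-y)*(1-p)^2 +
      5500335425/10182672*(y-7/25)^3*(1-y)*p*(1-p) +
      453624275/754272*(y-7/25)^3*(1-y)*p^2 +
      5254109375/40730688*(y-7/25)^4*p*(1-p) +
      6734375/46656*(y-7/25)^4*p^2 := by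
    positivity
  rw [← e] at e2
  linarith

lemma PhJ_pos {s t : ℝ} (hs : 0 ≤ s) (hs1 : s ≤ 18/25) (ht : 0 ≤ t) (ht1 : t ≤ 1) :
    1/100*(s*t)*(1-s)^2 ≤ PhJ (1-s) (s*t) := by
  have h1 : 0 ≤ 18/25 - s := by linarith
  have h2 : 0 ≤ 1 - t := by linarith
  have e : PhJ (1-s) (s*t) - 1/100*(s*t)*(1-s)^2 = s*(4953125/3779136*(18/25-s)^5*(1-t)^3 +
      2241859375/733152384*(18/25-s)^5*t*(1-t)^2 +
      25015625/11455506*(18/25-s)^5*t^2*(1-t) +
      320046875/733152384*(18/25-s)^5*t^3 +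
      27169625/7558272*s*(18/25-s)^4*(1-t)^3 +
      4203963125/183288096*s*(18/25-s)^4*t*(1-t)^2 +
      26256119125/733152384*s*(18/25-s)^4*t^2*(1-t) +
      6037860125/366576192*s*(18/25-s)^4*t^3 +
      20328005/3779136*s^2*(18/25-s)^3*(1-t)^3 +
      5226427565/91644048*s^2*(18/25-s)^3*t*(1-t)^2 +
      34078431955/366576192*s^2*(18/25-s)^3*t^2*(1-t) +
      1888718585/45822024*s^2*(18/25-s)^3*t^3 +
      175878443/37791360*s^3*(18/25-s)^2*(1-t)^3 +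
      214960027667/3665761920*s^3*(18/25-s)^2*t*(1-t)^2 +
      3367911661/37791360*s^3*(18/25-s)^2*t^2*(1-t) +
      129493527421/3665761920*s^3*(18/25-s)^2*t^3 +
      938369771/472392000*s^4*(18/25-s)*(1-t)^3 +
      2366854555747/91644048000*s^4*(18/25-s)*t*(1-t)^2 +
      397399090009/11455506000*s^4*(18/25-s)*t^2*(1-t) +
      1055769774899/91644048000*s^4*(18/25-s)*t^3 +
      3645100687/11809800000*s^5*(1-t)^3 +
      9121690010459/2291101200000*s^5*t*(1-t)^2 +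
      2606627201521/572775300000*s^5*t^2*(1-t) +
      2888033953903/2291101200000*s^5*t^3) := by
    unfold PhJ UU; ring
  have e2 : 0 ≤ s*(4953125/3779136*(18/25-s)^5*(1-t)^3 +
      2241859375/733152384*(18/25-s)^5*t*(1-t)^2 +
      25015625/11455506*(18/25-s)^5*t^2*(1-t) +
      320046875/733152384*(18/25-s)^5*t^3 +
      27169625/7558272*s*(18/25-s)^4*(1-t)^3 +
      4203963125/183288096*s*(18/25-s)^4*t*(1-t)^2 +
      26256119125/733152384*s*(18/25-s)^4*t^2*(1-t) +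
      6037860125/366576192*s*(18/25-s)^4*t^3 +
      20328005/3779136*s^2*(18/25-s)^3*(1-t)^3 +
      5226427565/91644048*s^2*(18/25-s)^3*t*(1-t)^2 +
      34078431955/366576192*s^2*(18/25-s)^3*t^2*(1-t) +
      1888718585/45822024*s^2*(18/25-s)^3*t^3 +
      175878443/37791360*s^3*(18/25-s)^2*(1-t)^3 +
      214960027667/3665761920*s^3*(18/25-s)^2*t*(1-t)^2 +
      3367911661/37791360*s^3*(18/25-s)^2*t^2*(1-t) +
      129493527421/3665761920*s^3*(18/25-s)^2*t^3 +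
      938369771/472392000*s^4*(18/25-s)*(1-t)^3 +
      2366854555747/91644048000*s^4*(18/25-s)*t*(1-t)^2 +
      397399090009/11455506000*s^4*(18/25-s)*t^2*(1-t) +
      1055769774899/91644048000*s^4*(18/25-s)*t^3 +
      3645100687/11809800000*s^5*(1-t)^3 +
      9121690010459/2291101200000*s^5*t*(1-t)^2 +
      2606627201521/572775300000*s^5*t^2*(1-t) +
      2888033953903/2291101200000*s^5*t^3) := by
    positivity
  rw [← e] at e2
  linarith

lemma AL_zero_a {s t : ℝ} (hs : 0 ≤ s) (hs1 : s ≤ 18/25) (ht : 0 ≤ t) (ht1 : t ≤ 1) :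
    0 ≤ AL 0 (1-s) (s*t) := by
  have h1 : 0 ≤ 18/25 - s := by linarith
  have h2 : 0 ≤ 1 - t := by linarith
  have e : AL 0 (1-s) (s*t) - 0 = s*(110375/31104*(18/25-s)^3*(1-t)^2 +
      6226625/754272*(18/25-s)^3*t*(1-t) +
      4733375/1005696*(18/25-s)^3*t^2 +
      236149/51840*s*(18/25-s)^2*(1-t)^2 +
      5348863/419040*s*(18/25-s)^2*t*(1-t) +
      15595801/1676160*s*(18/25-s)^2*t^2 +
      2501593/1296000*s^2*(18/25-s)*(1-t)^2 +
      239780123/31428000*s^2*(18/25-s)*t*(1-t) +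
      330613657/41904000*s^2*(18/25-s)*t^2 +
      1820827/6075000*s^3*(1-t)^2 +
      8827727879/4714200000*s^3*t*(1-t) +
      4192682459/1571400000*s^3*t^2) := by
    unfold AL UU; ring
  have e2 : 0 ≤ s*(110375/31104*(18/25-s)^3*(1-t)^2 +
      6226625/754272*(18/25-s)^3*t*(1-t) +
      4733375/1005696*(18/25-s)^3*t^2 +
      236149/51840*s*(18/25-s)^2*(1-t)^2 +
      5348863/419040*s*(18/25-s)^2*t*(1-t) +
      15595801/1676160*s*(18/25-s)^2*t^2 +
      2501593/1296000*s^2*(18/25-s)*(1-t)^2 +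
      239780123/31428000*s^2*(18/25-s)*t*(1-t) +
      330613657/41904000*s^2*(18/25-s)*t^2 +
      1820827/6075000*s^3*(1-t)^2 +
      8827727879/4714200000*s^3*t*(1-t) +
      4192682459/1571400000*s^3*t^2) := by
    positivity
  rw [← e] at e2
  linarith

lemma AL_zero_b {s t : ℝ} (hs : 0 ≤ s) (hs1 : s ≤ 1) (ht : 0 ≤ t) (ht1 : t ≤ 1) :
    0 ≤ AL 0 (1-s*t) s := by
  have h1 : 0 ≤ 1 - s := by linarith
  have h2 : 0 ≤ 1 - t := by linarith
  have e : AL 0 (1-s*t) s - 0 = s*(1677/3880*(1-s)^3*(1-t)^4 +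
      592353/194000*(1-s)^3*t*(1-t)^3 +
      1273959/194000*(1-s)^3*t^2*(1-t)^2 +
      1106259/194000*(1-s)^3*t^3*(1-t) +
      340803/194000*(1-s)^3*t^4 +
      3617/1940*s*(1-s)^2*(1-t)^4 +
      23049/2000*s*(1-s)^2*t*(1-t)^3 +
      24528441/1212500*s*(1-s)^2*t^2*(1-t)^2 +
      64716053/4850000*s*(1-s)^2*t^3*(1-t) +
      6726807/2425000*s*(1-s)^2*t^4 +
      9437/3880*s^2*(1-s)*(1-t)^4 +
      2694447/194000*s^2*(1-s)*t*(1-t)^3 +
      25113607/1212500*s^2*(1-s)*t^2*(1-t)^2 +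
      116222259/9700000*s^2*(1-s)*t^3*(1-t) +
      26443253/9700000*s^2*(1-s)*t^4 +
      1*s^3*(1-t)^4 +
      1051047/194000*s^3*t*(1-t)^3 +
      34189639/4850000*s^3*t^2*(1-t)^2 +
      42103103/9700000*s^3*t^3*(1-t) +
      42103103/38800000*s^3*t^4) := by
    unfold AL UU; ring
  have e2 : 0 ≤ s*(1677/3880*(1-s)^3*(1-t)^4 +
      592353/194000*(1-s)^3*t*(1-t)^3 +
      1273959/194000*(1-s)^3*t^2*(1-t)^2 +
      1106259/194000*(1-s)^3*t^3*(1-t) +
      340803/194000*(1-s)^3*t^4 +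
      3617/1940*s*(1-s)^2*(1-t)^4 +
      23049/2000*s*(1-s)^2*t*(1-t)^3 +
      24528441/1212500*s*(1-s)^2*t^2*(1-t)^2 +
      64716053/4850000*s*(1-s)^2*t^3*(1-t) +
      6726807/2425000*s*(1-s)^2*t^4 +
      9437/3880*s^2*(1-s)*(1-t)^4 +
      2694447/194000*s^2*(1-s)*t*(1-t)^3 +
      25113607/1212500*s^2*(1-s)*t^2*(1-t)^2 +
      116222259/9700000*s^2*(1-s)*t^3*(1-t) +
      26443253/9700000*s^2*(1-s)*t^4 +
      1*s^3*(1-t)^4 +
      1051047/194000*s^3*t*(1-t)^3 +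
      34189639/4850000*s^3*t^2*(1-t)^2 +
      42103103/9700000*s^3*t^3*(1-t) +
      42103103/38800000*s^3*t^4) := by
    positivity
  rw [← e] at e2
  linarith

lemma AL_big {y p : ℝ} (hs : 7/25 ≤ y) (hs1 : y ≤ 1) (ht : 0 ≤ p) (ht1 : p ≤ 1) :
    0 ≤ AL (87/10) y p := by
  have h0 : 0 ≤ y - 7/25 := by linarith
  have h1 : 0 ≤ 1 - y := by linarith
  have h2 : 0 ≤ 1 - p := by linarith
  have e : AL (87/10) y p - 0 = 10439185577/3499200000*(1-y)^4*(1-p)^2 +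
      13496979923813/339422400000*(1-y)^4*p*(1-p) +
      1301361451751/31820850000*(1-y)^4*p^2 +
      1629910907/139968000*(y-7/25)*(1-y)^3*(1-p)^2 +
      1069394334229/6788448000*(y-7/25)*(1-y)^3*p*(1-p) +
      6612530681437/40730688000*(y-7/25)*(1-y)^3*p^2 +
      94984331/5832000*(y-7/25)^2*(1-y)^2*(1-p)^2 +
      523365732731/2262816000*(y-7/25)^2*(1-y)^2*p*(1-p) +
      1627152624409/6788448000*(y-7/25)^2*(1-y)^2*p^2 +
      48159059/5598720*(y-7/25)^3*(1-y)*(1-p)^2 +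
      39943854973/271537920*(y-7/25)^3*(1-y)*p*(1-p) +
      252467593669/1629227520*(y-7/25)^3*(1-y)*p^2 +
      395125/1119744*(y-7/25)^4*(1-p)^2 +
      3511764625/108615168*(y-7/25)^4*p*(1-p) +
      7578125/209952*(y-7/25)^4*p^2 := by
    unfold AL UU; ring
  have e2 : 0 ≤ 10439185577/3499200000*(1-y)^4*(1-p)^2 +
      13496979923813/339422400000*(1-y)^4*p*(1-p) +
      1301361451751/31820850000*(1-y)^4*p^2 +
      1629910907/139968000*(y-7/25)*(1-y)^3*(1-p)^2 +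
      1069394334229/6788448000*(y-7/25)*(1-y)^3*p*(1-p) +
      6612530681437/40730688000*(y-7/25)*(1-y)^3*p^2 +
      94984331/5832000*(y-7/25)^2*(1-y)^2*(1-p)^2 +
      523365732731/2262816000*(y-7/25)^2*(1-y)^2*p*(1-p) +
      1627152624409/6788448000*(y-7/25)^2*(1-y)^2*p^2 +
      48159059/5598720*(y-7/25)^3*(1-y)*(1-p)^2 +
      39943854973/271537920*(y-7/25)^3*(1-y)*p*(1-p) +
      252467593669/1629227520*(y-7/25)^3*(1-y)*p^2 +
      395125/1119744*(y-7/25)^4*(1-p)^2 +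
      3511764625/108615168*(y-7/25)^4*p*(1-p) +
      7578125/209952*(y-7/25)^4*p^2 := by
    positivity
  rw [← e] at e2
  linarith

end

end Pool.Agent.Q186.DY
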