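import Pool.Agent.Q186.DY.Poly

/-!
# Project DY: polynomial inequalities for the upper barrier
-/

namespace Pool.Agent.Q186.DY

noncomputable section

def ZU (T : ℝ) : ℝ := 1 - 21/40*T

def PU (T K : ℝ) : ℝ := 109/100*(ZU T)^2 - 9/100 + 3/100*(35/4*K)

lemma FA_pos {T K D R : ℝ} (hT : 0 ≤ T) (hK : 0 ≤ K) (hD : 0 ≤ D) (hR : 0 ≤ R)
    (h : T + K + D + R = 1) : 1/200*(35/4*K) ≤ 4*(ZU T*PU T K - R^2) - 21/40*R*((1+525/53*D)*ZU T+35/4*K) + 21/40*(1-40/21*(T+K+D)-D-7/6*K)^2 := by
  have e : 4*(ZU T*PU T K - R^2) - 21/40*R*((1+525/53*D)*ZU T+35/4*K) + 21/40*(1-40/21*(T+K+D)-D-7/6*K)^2 - 1/200*(35/4*K) = 291/1060*D*R^2 +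
      137551/22260*D^2*R +
      124/21*D^3 +
      137/80*K*R^2 +
      898481/59360*K*D*R +
      64021/3360*K*D^2 +
      314/35*K^2*R +
      22857/1120*K^2*D +
      813/112*K^3 +
      981/8000*T*R^2 +
      27864733/4452000*T*D*R +
      31627/3500*T*D^2 +
      312479/56000*T*K*R +
      1682141/84000*T*K*D +
      154053/14000*T*K^2 +
      77677/52500*T^2*R +
      1256769/280000*T^2*D +
      4285507/840000*T^2*K +
      24394651/33600000*T^3 := by
    obtain rfl : R = 1 - T - K - D := by linarith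
    unfold PU ZU; ring
  have e2 : 0 ≤ 291/1060*D*R^2 +
      137551/22260*D^2*R +
      124/21*D^3 +
      137/80*K*R^2 +
      898481/59360*K*D*R +
      64021/3360*K*D^2 +
      314/35*K^2*R +
      22857/1120*K^2*D +
      813/112*K^3 +
      981/8000*T*R^2 +
      27864733/4452000*T*D*R +
      31627/3500*T*D^2 +
      312479/56000*T*K*R +
      1682141/84000*T*K*D +
      154053/14000*T*K^2 +
      77677/52500*T^2*R +
      1256769/280000*T^2*D +
      4285507/840000*T^2*K +
      24394651/33600000*T^3 := by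
    positivity
  rw [← e] at e2
  linarith

lemma FB_pos {T K D R : ℝ} (hT : 0 ≤ T) (hK : 0 ≤ K) (hD : 0 ≤ D) (hR : 0 ≤ R)
    (h : T + K + D + R = 1) : 1/200*(35/4*K) ≤ 4*(ZU T*PU T K - R^2) - 21/40*R*((1+525/53*D)*ZU T+35/4*K) + 21/40*R^2*(1-40/21*(T+K+D)-D-7/6*K) := by
  have e : 4*(ZU T*PU T K - R^2) - 21/40*R*((1+525/53*D)*ZU T+35/4*K) + 21/40*R^2*(1-40/21*(T+K+D)-D-7/6*K) - 1/200*(35/4*K) = 1589/2120*D*R^2 +
      6651/1060*D^2*R +
      4*D^3 +
      91/40*K*R^2 +
      128627/8480*K*D*R +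
      2081/160*K*D^2 +
      1423/160*K^2*R +
      1121/80*K^2*D +
      801/160*K^3 +
      581/8000*T*R^2 +
      1568673/212000*T*D*R +
      2661/500*T*D^2 +
      53897/8000*T*K*R +
      48421/4000*T*K*D +
      27133/4000*T*K^2 +
      9999/5000*T^2*R +
      89967/40000*T^2*D +
      108167/40000*T^2*K +
      474031/1600000*T^3 := by
    obtain rfl : R = 1 - T - K - D := by linarith
    unfold PU ZU; ring
  have e2 : 0 ≤ 1589/2120*D*R^2 +
      6651/1060*D^2*R +
      4*D^3 +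
      91/40*K*R^2 +
      128627/8480*K*D*R +
      2081/160*K*D^2 +
      1423/160*K^2*R +
      1121/80*K^2*D +
      801/160*K^3 +
      581/8000*T*R^2 +
      1568673/212000*T*D*R +
      2661/500*T*D^2 +
      53897/8000*T*K*R +
      48421/4000*T*K*D +
      27133/4000*T*K^2 +
      9999/5000*T^2*R +
      89967/40000*T^2*D +
      108167/40000*T^2*K +
      474031/1600000*T^3 := by
    positivity
  rw [← e] at e2
  linarith

lemma AU_pos {T K D R : ℝ} (hT : 0 ≤ T) (hK : 0 ≤ K) (hD : 0 ≤ D) (hR : 0 ≤ R)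
    (h : T + K + D + R = 1) : 0 ≤ ZU T*PU T K - R^2 := by
  have e : ZU T*PU T K - R^2 - 0 = 2*D*R^2 +
      3*D^2*R +
      1*D^3 +
      181/80*K*R^2 +
      261/40*K*D*R +
      261/80*K*D^2 +
      141/40*K^2*R +
      141/40*K^2*D +
      101/80*K^3 +
      661/2000*T*R^2 +
      2661/1000*T*D*R +
      2661/2000*T*D^2 +
      48771/16000*T*K*R +
      48771/16000*T*K*D +
      27483/16000*T*K^2 +
      89967/160000*T^2*R +
      89967/160000*T^2*D +
      109917/160000*T^2*K +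
      474031/6400000*T^3 := by
    obtain rfl : R = 1 - T - K - D := by linarith
    unfold PU ZU; ring
  have e2 : 0 ≤ 2*D*R^2 +
      3*D^2*R +
      1*D^3 +
      181/80*K*R^2 +
      261/40*K*D*R +
      261/80*K*D^2 +
      141/40*K^2*R +
      141/40*K^2*D +
      101/80*K^3 +
      661/2000*T*R^2 +
      2661/1000*T*D*R +
      2661/2000*T*D^2 +
      48771/16000*T*K*R +
      48771/16000*T*K*D +
      27483/16000*T*K^2 +
      89967/160000*T^2*R +
      89967/160000*T^2*D +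
      109917/160000*T^2*K +
      474031/6400000*T^3 := by
    positivity
  rw [← e] at e2
  linarith

end

end Pool.Agent.Q186.DY
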