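import Mathlib

/-!
# Project DY: the dyadic model of the Navier-Stokes equations for `β ≤ 3`

The model (Katz-Pavlovic, Desnyansky-Novikov) is

`X_n' = - ν λ^(2n) X_n + λ^(β(n-1)) X_(n-1)^2 - λ^(β n) X_n X_(n+1)`, `X_n(0) = a_n ≥ 0`.

In the critical variables `V_(n+1) = λ^(β-4) λ^((β-2) n) X_n`, `V_0 = 0`, it becomes, with
`L = λ^2`, `g = λ^(6-2β)`, `k = ν`,

`V_(n+1)' = L^n (V_n^2 - V_(n+1) (g V_(n+2) + k))`.

`L ≥ 4` iff `λ ≥ 2`, `g ≥ 1` iff `β ≤ 3`. This file contains the statements of the lemmas, with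
complete proofs in the docstrings.
-/

namespace Pool.Agent.Q186.DY

open Set Filter Topology MeasureTheory

/-- The infinite system in the critical variables. -/
structure Sys (L g k : ℝ) (V : ℕ → ℝ → ℝ) : Prop where
  zero : ∀ t, 0 ≤ t → V 0 t = 0
  deriv : ∀ n t, 0 ≤ t → HasDerivWithinAt (V (n + 1))
    (L ^ n * (V n t ^ 2 - V (n + 1) t * (g * V (n + 2) t + k))) (Ici 0) t

/-- The truncated system: shells `1, …, N`, closed by `U (N+1) = U N`. -/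
structure Trunc (L g k : ℝ) (N : ℕ) (a : ℕ → ℝ) (U : ℕ → ℝ → ℝ) : Prop where
  zero : ∀ t, 0 ≤ t → U 0 t = 0
  last : ∀ t, 0 ≤ t → U (N + 1) t = U N t
  init : ∀ n, 1 ≤ n → n ≤ N → U n 0 = a n
  nonneg : ∀ n t, 0 ≤ t → n ≤ N + 1 → 0 ≤ U n t
  deriv : ∀ n t, n + 1 ≤ N → 0 ≤ t → HasDerivWithinAt (U (n + 1))
    (L ^ n * (U n t ^ 2 - U (n + 1) t * (g * U (n + 2) t + k))) (Ici 0) t
  energy : ∀ t, 0 ≤ t → ∑ n ∈ Finset.range (N + 1), (g / L) ^ n * U n t ^ 2 ≤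
    ∑ n ∈ Finset.range (N + 1), (g / L) ^ n * U n 0 ^ 2

/-- Job BAR: a barrier lemma for finitely many functions (first exit time).
PROOF. Suppose some `φ i` with `i ∈ s` is `≤ 0` at some time in `[0,T]`. The set
`Z = {t ∈ [0,T] | ∃ i ∈ s, φ i t ≤ 0}` is closed (finite union of closed sets) and nonempty; let
`t` be its minimum (`IsCompact.exists_isLeast`). `t > 0` as `φ i 0 > 0`. For `r < t` all `φ j r > 0`,
so by continuity all `φ j t ≥ 0`, and one of them, `φ i t ≤ 0`, hence `φ i t = 0`. The derivative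
from the left of `φ i` at `t` is `d > 0`, so `φ i r < φ i t = 0` for some `r < t` close to `t`
(`HasDerivWithinAt` gives slope → `d > 0` along `𝓝[<] t`), a contradiction. -/
def P_BAR : Prop := ∀ (ι : Type) (s : Finset ι) (φ : ι → ℝ → ℝ) (T : ℝ), 0 ≤ T →
  (∀ i ∈ s, ContinuousOn (φ i) (Icc 0 T)) → (∀ i ∈ s, 0 < φ i 0) →
  (∀ t, 0 < t → t ≤ T → ∀ i ∈ s, (∀ j ∈ s, 0 ≤ φ j t) → φ i t = 0 →
    ∃ d, 0 < d ∧ HasDerivWithinAt (φ i) d (Iic t) t) →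
  ∀ t, 0 ≤ t → t ≤ T → ∀ i ∈ s, 0 < φ i t

/-- Job NN: nonnegative data give nonnegative solutions.
PROOF. `f = V (n+1)` satisfies `f' = p - f r` with `p = L^n V_n^2 ≥ 0` and
`r = L^n (g V_(n+2) + k)`, which is continuous on `[0,∞)` (all `V (m+1)` are differentiable, `V 0`
is zero). With `R t = ∫_0^t r` (or any primitive of the continuous function `r (max s 0)`)
the function `f exp R` has derivative `p exp R ≥ 0` on `[0,∞)`, hence is monotone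
(`monotoneOn_of_deriv_nonneg`), so `f t exp (R t) ≥ f 0 ≥ 0`. -/
def P_NN : Prop := ∀ (L g k : ℝ) (V : ℕ → ℝ → ℝ), 0 ≤ L → Sys L g k V → (∀ n, 0 ≤ V n 0) →
  ∀ n t, 0 ≤ t → 0 ≤ V n t

/-- Job TR: the truncated systems have global nonnegative solutions (use `P_BAR`).
PROOF. Let `b n = a n` for `1 ≤ n ≤ N`, `b 0 = 0`, `E = ∑_{n ≤ N} (g/L)^n b_n^2 + 1`, and choose `R ≥ 1`
with `(g/L)^n R^2 > E` for all `n ≤ N`. Let `c v = max 0 (min v R)` (bounded by `R`, `1`-Lipschitz).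
On `F = Fin (N+1) → ℝ` the vector field `W v i = 0` for `i = 0`,
`W v i = L^(i-1) (c (v (i-1))^2 - c (v i) (g c (v i⁺) + k))`, `i⁺ = min (i+1) N`, is bounded and Lipschitz,
so it has a global solution: `Pool.Agent.H839R2.Ode.exists_global_solution` (file
`Pool/Agent/H839R2/Ode/Flow.lean`, Mathlib only). Put `U n t = α t (min n N)`; then
`U (N+1) = U N`. (1) `U n t ≥ 0` for `t ≥ 0`: where `U n < 0` we have `c (U n) = 0` and the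
derivative is `L^(n-1) c(U (n-1))^2 ≥ 0`; a differentiable function with `f 0 ≥ 0` and `f' ≥ 0` wherever
`f < 0` is `≥ 0` (last time before with `f ≥ 0` + monotonicity). (2) `e t = ∑_{n ≤ N} (g/L)^n U_n^2` stays
`< E`: by `P_BAR` with the single function `E - e`: if `e t = E` then every `U n t < R`, so `c` does nothing at time `t`,
and (telescoping, as `U_0 = 0`, `U_(N+1) = U_N`)
`e' = -(2/L) (g^(N+1) U_N^2 U_(N+1) + k ∑_{1 ≤ n ≤ N} g^n U_n^2) < 0` because `e t = E > 0`.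
(3) So `U n t < R` for all `t ≥ 0`, `c` is the identity along the solution, the equations
hold, and `e' ≤ 0` gives the energy inequality. -/
def P_TR : Prop := ∀ (L g k : ℝ) (N : ℕ) (a : ℕ → ℝ), 1 ≤ L → 1 ≤ g → 0 < k → 1 ≤ N →
  (∀ n, 0 ≤ a n) → ∃ U : ℕ → ℝ → ℝ, Trunc L g k N a U

/-- Job CP: compactness.
PROOF. For `n + 1 ≤ N` the derivative of `U N (n+1)` is bounded on `[0,∞)` by
`D n = L^n (C n ^2 + |C (n+1)| (g |C (n+2)| + k))`, so `U N n`, `N ≥ n`, are Lipschitz on `[0,∞)` with a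
constant independent of `N` (mean value). For `n + 2 ≤ N` everything is covered by the hypothesis.
Consider the points `(n, r) ↦ U N n r` (for `n ≤ N + 1`, else `0`) of the product over the countable
set `ℕ × {r : ℚ // 0 ≤ r}` of the compact intervals `[0, max (C n) 0]`; this product is a compact first
countable space, hence sequentially compact (`IsCompact.isSeqCompact`, `isCompact_univ_pi`, or use
`tendsto_subseq`), which gives a strictly increasing `φ` such that `U (φ j) n r` converges for all `n` and all rational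
`r ≥ 0`. By the uniform Lipschitz bound `U (φ j) n t` is a Cauchy sequence for every real `t ≥ 0`;
call the limit `V n t` (for `t < 0` put `V n t = V n 0`, or anything). For fixed `n` and `t ≥ 0` pass to the limit in
`U (φ j) (n+1) t = U (φ j) (n+1) 0 + ∫_0^t L^n (...)` by dominated convergence
(`intervalIntegral.tendsto_integral_filter_of_dominated_convergence`); the limit integrand is continuous
on `[0,∞)` (limits of uniformly Lipschitz functions are Lipschitz), so `V (n+1)` has the right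
derivative within `Ici 0` at every `t ≥ 0`. -/
def P_CP : Prop := ∀ (L g k : ℝ) (a C : ℕ → ℝ) (U : ℕ → ℕ → ℝ → ℝ), 1 ≤ L → 1 ≤ g → 0 < k →
  (∀ N, 1 ≤ N → Trunc L g k N a (U N)) →
  (∀ N n t, 1 ≤ N → n ≤ N → 0 ≤ t → U N n t ≤ C n) →
  ∃ (V : ℕ → ℝ → ℝ) (φ : ℕ → ℕ), Sys L g k V ∧ (∀ n, 1 ≤ n → V n 0 = a n) ∧ StrictMono φ ∧
    ∀ n t, 0 ≤ t → Tendsto (fun j => U (φ j) n t) atTop (𝓝 (V n t))

/-- Job EN: the energy identity of the first `N` shells.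
PROOF. `d/dt ∑_{n ≤ N} (g/L)^n V_n^2 = ∑_{n=1}^N 2 (g^n/L) V_n (V_(n-1)^2 - g V_n V_(n+1) - k V_n)`, and
`∑_{n=1}^N g^n V_n V_(n-1)^2 - ∑_{n=1}^N g^(n+1) V_n^2 V_(n+1) = - g^(N+1) V_N^2 V_(N+1)` by
telescoping, as `V_0 = 0` (induction on `N`). Then the fundamental theorem of calculus on `[0,t]`
(all functions are continuous on `[0,t]`; `V (N+1)` too). -/
def P_EN : Prop := ∀ (L g k : ℝ) (V : ℕ → ℝ → ℝ), 0 < L → Sys L g k V →
  ∀ (N : ℕ) (t : ℝ), 0 ≤ t →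
  ∑ n ∈ Finset.range (N + 1), (g / L) ^ n * V n t ^ 2
    + 2 * k / L * ∫ s in (0:ℝ)..t, ∑ n ∈ Finset.range (N + 1), g ^ n * V n s ^ 2
    + 2 * g / L * ∫ s in (0:ℝ)..t, g ^ N * V N s ^ 2 * V (N + 1) s
    = ∑ n ∈ Finset.range (N + 1), (g / L) ^ n * V n 0 ^ 2

/-- Job UNI: stability of bounded solutions (use `P_EN`).
PROOF. `D = V - W`, `S = V + W`, `ρ = g/(2L)`. Since `V_(n+1)V_(n+2) - W_(n+1)W_(n+2) =
(D_(n+1) S_(n+2) + S_(n+1) D_(n+2))/2`, we have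
`D_(n+1)' = L^n (D_n S_n - (g/2)(D_(n+1) S_(n+2) + S_(n+1) D_(n+2)) - k D_(n+1))`. In the derivative of
`ψ_N = ∑_{n ≤ N} ρ^n D_n^2` the terms with `S_n D_n D_(n+1)` cancel for `1 ≤ n < N`
(`2 ρ^(n+1) L^n = ρ^n L^(n-1) g`), for `n = 0` they vanish (`D_0 = 0`), and for `N ≥ 1`
`ψ_N' = - ∑_{n=1}^N ρ^n L^(n-1) D_n^2 (g S_(n+1) + 2k) - ρ^N L^(N-1) g S_N D_N D_(N+1)`
`≤ (g/L) 2^(-N) g^N (V_N^2 W_(N+1) + W_N^2 V_(N+1))`, because `-S_N D_N D_(N+1) =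
-(V_N^2 - W_N^2)(V_(N+1) - W_(N+1)) ≤ V_N^2 W_(N+1) + W_N^2 V_(N+1)` and `ρ^N L^(N-1) g = (g/L) 2^(-N) g^N`.
With `V ≤ M`: `V_N^2 W_(N+1) ≤ M (V_N^2 + W_(N+1)^2)`, `W_N^2 V_(N+1) ≤ M W_N^2`. By `P_EN` (all terms are
nonnegative) `∫_0^t g^n V_n^2 ≤ E L/(2k)` and the same for `W`. So `ψ_N(t) ≤ ψ_N(0) + C 2^(-N)`, with
`C = (g/L) M · 3 E L/(2k)` (use `g^N ≤ g^(N+1)`). For fixed `N0 ≤ N`, `ψ_(N0)(t) ≤ ψ_N(t) ≤ B + C 2^(-N)`; let
`N → ∞`. -/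
def P_UNI : Prop := ∀ (L g k M E B : ℝ) (V W : ℕ → ℝ → ℝ), 1 ≤ L → 1 ≤ g → 0 < k →
  Sys L g k V → Sys L g k W → (∀ n t, 0 ≤ t → 0 ≤ V n t) → (∀ n t, 0 ≤ t → 0 ≤ W n t) →
  (∀ n t, 0 ≤ t → V n t ≤ M) →
  (∀ N, ∑ n ∈ Finset.range (N + 1), (g / L) ^ n * V n 0 ^ 2 ≤ E) →
  (∀ N, ∑ n ∈ Finset.range (N + 1), (g / L) ^ n * W n 0 ^ 2 ≤ E) →
  (∀ N, ∑ n ∈ Finset.range (N + 1), (g / (2 * L)) ^ n * (V n 0 - W n 0) ^ 2 ≤ B) →
  ∀ N t, 0 ≤ t → ∑ n ∈ Finset.range (N + 1), (g / (2 * L)) ^ n * (V n t - W n t) ^ 2 ≤ B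

/-- Job SM: smoothing.
PROOF. Linear comparison (as in `P_NN`): if `V_n ≤ A` on `[t1, ∞)` then, since `g V_(n+2) ≥ 0`, for `t ≥ t1`
`V_(n+1)(t) ≤ exp(-k L^n (t - t1)) V_(n+1)(t1) + A^2/k`.
First part: `t_n = t0 (1 - 2^(-n))`, so `t_0 = 0` and `t_(n+1) - t_n = t0 2^(-n-1)`. Let `A_n` be defined by
`A_n = M` for `n < N2` and, for `n ≥ N2`, recursively an upper bound of `V_n` on `[t_n, ∞)`:
`A_(N2) = k/2`, `A_(n+1) = min (k/2) (M e_n + A_n^2/k)`, `e_n = exp(-k L^n t0 2^(-n-1)) ≤ exp(-k t0 2^(n-1))` (as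
`L ≥ 4`). Since `A_n ≤ k/2`, `A_(n+1) ≤ M e_n + A_n/2` and `e_n` decreases faster than any `q^n`, so `A_n → 0`. Given
`q`, from some index on `A_n/k ≤ q/2` and `M e_n ≤` (something) `(q/2) · q^n …`: `A_(n+1) ≤ M e_n + (q/2) A_n`, which gives
`A_n ≤ C q^n` by induction (choose `C` with `M e_n ≤ C q^(n+1)/2` for all `n` and `A_n ≤ C q^n` at the first
index). As `t_n ≤ t0`, the bound holds for `t ≥ t0`; for `n < N2` enlarge `C`.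
Second part: on `[0,∞)`: `V_(n+1)(t) ≤ max`-type bound: `V_(n+1)(t) ≤ max (V_(n+1)(0)) (A_n^2/k)` if `V_n ≤ A_n` on
`[0,∞)` (or `≤ V_(n+1)(0) + A_n^2/k`). With `A_n ≤ k/2`: `A_(n+1) = min (k/2) (V_(n+1)(0) + A_n^2/k)`, and the
same argument with `V_(n+1)(0) ≤ C q^(n+1)`. -/
def P_SM : Prop := ∀ (L g k M : ℝ) (N2 : ℕ) (V : ℕ → ℝ → ℝ), 4 ≤ L → 1 ≤ g → 0 < k →
  Sys L g k V → (∀ n t, 0 ≤ t → 0 ≤ V n t) → (∀ n t, 0 ≤ t → V n t ≤ M) →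
  (∀ n t, N2 ≤ n → 0 ≤ t → V n t ≤ k / 2) →
  (∀ q t0 : ℝ, 0 < q → q < 1 → 0 < t0 → ∃ C : ℝ, ∀ n t, t0 ≤ t → V n t ≤ C * q ^ n) ∧
  ((∀ q : ℝ, 0 < q → q < 1 → ∃ C : ℝ, ∀ n, V n 0 ≤ C * q ^ n) →
    ∀ q : ℝ, 0 < q → q < 1 → ∃ C : ℝ, ∀ n t, 0 ≤ t → V n t ≤ C * q ^ n)

/-- Job TIME: regular times (use `P_EN`).
PROOF. By `P_EN` and nonnegativity `∫_0^T ∑_{n ≤ N} g^n V_n^2 ≤ E L/(2k)` for all `N`. If for all
`t0 ∈ (0,T)` the sums `∑_{n ≤ N} g^n V_n(t0)^2` were unbounded in `N`, then monotone convergence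
(`lintegral_iSup` or `integral_tendsto_of_tendsto_of_monotone`) would give infinity. So there is `t0 ∈ (0,T)` with
`∑ g^n V_n(t0)^2 < ∞`, hence `V_n(t0)^2 ≤ g^n V_n(t0)^2 → 0`. -/
def P_TIME : Prop := ∀ (L g k E T : ℝ) (V : ℕ → ℝ → ℝ), 1 ≤ L → 1 ≤ g → 0 < k →
  Sys L g k V → (∀ n t, 0 ≤ t → 0 ≤ V n t) →
  (∀ N, ∑ n ∈ Finset.range (N + 1), (g / L) ^ n * V n 0 ^ 2 ≤ E) → 0 < T →
  ∃ t0, 0 < t0 ∧ t0 < T ∧ Tendsto (fun n => V n t0) atTop (𝓝 0)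

/-- Job EQ: the energy equality of solutions which are smooth for positive times (use `P_EN`).
PROOF. By `P_EN` all `∑_{n ≤ N} (g/L)^n V_n(t)^2 ≤ E0 := ∑' (g/L)^n V_n(0)^2`, so the series is summable for every
`t ≥ 0`; call the sum `e t`, and `∑' g^n V_n(s)^2 =: d s`, finite for `s > 0` by the decay (take `q` with
`g q^2 < 1`). For `0 < t0 ≤ t` subtract the identities of `P_EN` at `t` and `t0` and let `N → ∞`: the flux
`∫_(t0)^t g^N V_N^2 V_(N+1)` tends to `0` (decay with `g q^3 < 1`) and `∫_(t0)^t ∑_{n ≤ N} → ∫_(t0)^t d`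
(uniform convergence), so `e t + (2k/L) ∫_(t0)^t d = e t0`. As `t0 → 0`: `∫_(t0)^t d → ∫_0^t d` (monotone, bounded by
`E0 L/(2k)`, `d ≥ 0`, so `d` is integrable on `(0,t]`), and `e t0 → E0`: `e t0 ≤ E0`, and for each `N`
`e t0 ≥ ∑_{n ≤ N} (g/L)^n V_n(t0)^2 → ∑_{n ≤ N} (g/L)^n V_n(0)^2`. -/
def P_EQ : Prop := ∀ (L g k : ℝ) (V : ℕ → ℝ → ℝ), 1 ≤ L → 1 ≤ g → 0 < k →
  Sys L g k V → (∀ n t, 0 ≤ t → 0 ≤ V n t) →
  Summable (fun n => (g / L) ^ n * V n 0 ^ 2) →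
  (∀ q t0 : ℝ, 0 < q → q < 1 → 0 < t0 → ∃ C : ℝ, ∀ n t, t0 ≤ t → V n t ≤ C * q ^ n) →
  ∀ t, 0 ≤ t → Summable (fun n => (g / L) ^ n * V n t ^ 2) ∧
    (∀ s, 0 < s → Summable (fun n => g ^ n * V n s ^ 2)) ∧
    IntervalIntegrable (fun s => ∑' n, g ^ n * V n s ^ 2) volume 0 t ∧
    ∑' n, (g / L) ^ n * V n t ^ 2 + 2 * k / L * ∫ s in (0:ℝ)..t, ∑' n, g ^ n * V n s ^ 2
      = ∑' n, (g / L) ^ n * V n 0 ^ 2

/-- Job REG (helper186): the invariant region. -/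
def P_REG : Prop := ∀ (L g k : ℝ) (a : ℕ → ℝ), 4 ≤ L → 1 ≤ g → 0 < k → (∀ n, 0 ≤ a n) →
  Tendsto a atTop (𝓝 0) → ∃ (M : ℝ) (N2 : ℕ), ∀ (N : ℕ) (U : ℕ → ℝ → ℝ), 1 ≤ N →
    Trunc L g k N a U → ∀ n t, n ≤ N → 0 ≤ t → U n t ≤ M ∧ (N2 ≤ n → U n t ≤ k / 2)

end Pool.Agent.Q186.DY
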