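import Pool.Agent.Q186.DY.Barrier
import Pool.Agent.Q186.DY.Stm

/-!
# Project DY: the invariant region
-/

namespace Pool.Agent.Q186.DY

open Set Filter Topology

noncomputable section

/-- The properties of the sequence of bounds. -/
structure Bds (k : ℝ) (a : ℕ → ℝ) (M : ℕ → ℝ) : Prop where
  low : ∀ n, k / 2 ≤ M n
  anti : ∀ n, M (n + 1) ≤ M n
  step : ∀ n, M n ≤ M (n + 1) + k / 100
  data : ∀ n, a n ≤ M n / 4

lemma exists_bds {k : ℝ} {a : ℕ → ℝ} (hk : 0 < k) (ha : ∀ n, 0 ≤ a n)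
    (h0 : Tendsto a atTop (𝓝 0)) :
    ∃ (M : ℕ → ℝ) (M0 : ℝ) (N2 : ℕ), Bds k a M ∧ (∀ n, M n ≤ M0) ∧
      ∀ n, N2 ≤ n → M n = k / 2 := by
  obtain ⟨A, hA⟩ : ∃ A : ℝ, ∀ n, a n ≤ A := by
    obtain ⟨A, hA⟩ := h0.bddAbove_range
    exact ⟨A, fun n => hA ⟨n, rfl⟩⟩
  have hA0 : 0 ≤ A := (ha 0).trans (hA 0)
  obtain ⟨n0, hn0⟩ : ∃ n0, ∀ n, n0 ≤ n → a n ≤ k / 8 := by
    have := h0.eventually (gt_mem_nhds (show (0:ℝ) < k / 8 by positivity))
    obtain ⟨n0, h⟩ := eventually_atTop.1 this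
    exact ⟨n0, fun n hn => (h n hn).le⟩
  set M1 : ℝ := 4 * A + k with hM1
  let M : ℕ → ℝ := fun n => max (k / 2) (min M1 (M1 + k / 100 * ((n0 : ℝ) - n)))
  have hM1k : k / 2 ≤ M1 := by rw [hM1]; linarith
  obtain ⟨m, hm⟩ := exists_nat_gt (100 * M1 / k)
  refine ⟨M, M1, n0 + m, ⟨fun n => le_max_left _ _, fun n => ?_, fun n => ?_, fun n => ?_⟩,
    fun n => ?_, fun n hn => ?_⟩
  · simp only [M]
    apply max_le_max le_rfl
    apply min_le_min le_rfl
    push_cast
    nlinarith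
  · simp only [M]
    apply max_le
    · have := le_max_left (k/2) (min M1 (M1 + k / 100 * ((n0 : ℝ) - ((n+1 : ℕ) : ℝ))))
      linarith
    · have h1 : min M1 (M1 + k / 100 * ((n0 : ℝ) - n)) ≤
          min M1 (M1 + k / 100 * ((n0 : ℝ) - ((n+1 : ℕ) : ℝ))) + k / 100 := by
        rw [← min_add_add_right]
        apply min_le_min
        · linarith
        · push_cast; linarith
      have h2 := le_max_right (k/2) (min M1 (M1 + k / 100 * ((n0 : ℝ) - ((n+1 : ℕ) : ℝ))))
      linarith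
  · rcases le_total n n0 with h | h
    · have h1 : M1 ≤ M n := by
        simp only [M]
        apply le_max_of_le_right
        apply le_min le_rfl
        have : (n : ℝ) ≤ n0 := by exact_mod_cast h
        nlinarith
      have := hA n
      linarith
    · have h1 := hn0 n h
      have h2 : k / 2 ≤ M n := le_max_left _ _
      linarith
  · simp only [M]
    exact max_le hM1k (min_le_left _ _)
  · simp only [M]
    apply max_eq_left
    apply min_le_of_right_le
    have h1 : ((n0 : ℝ) + m) ≤ n := by exact_mod_cast hn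
    rw [div_lt_iff₀ hk] at hm
    nlinarith

/-- The three families of constraints. -/
def Phi (g k : ℝ) (M : ℕ → ℝ) (U : ℕ → ℝ → ℝ) (i : ℕ × ℕ) (t : ℝ) : ℝ :=
  if i.2 = 0 then M i.1 - U i.1 t
  else if i.2 = 1 then
    M i.1 * (g * U (i.1 + 1) t + 97/100 * k) - 109/100 * U i.1 t ^ 2 + 9/100 * M i.1 ^ 2
  else 19/40 * M i.1 + 21/40 * U i.1 t + 3/50 * k + 53/1000 * (g - 1) * M i.1 - U (i.1 + 1) t

variable {L g k : ℝ} {N : ℕ} {a : ℕ → ℝ} {U : ℕ → ℝ → ℝ} {M : ℕ → ℝ}

/-- The derivative of the `n`-th component. -/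
def dU (L g k : ℝ) (U : ℕ → ℝ → ℝ) (n : ℕ) (t : ℝ) : ℝ :=
  if n = 0 then 0 else L ^ (n - 1) * (U (n - 1) t ^ 2 - U n t * (g * U (n + 1) t + k))

lemma hasDeriv_U (hU : Trunc L g k N a U) {n : ℕ} {t : ℝ} (hn : n ≤ N) (ht : 0 < t) :
    HasDerivAt (U n) (dU L g k U n t) t := by
  rcases n with _ | n
  · simp only [dU, if_true]
    have h : U 0 =ᶠ[𝓝 t] fun _ => (0:ℝ) := by
      filter_upwards [lt_mem_nhds ht] with s hs
      exact hU.zero s hs.le
    exact (hasDerivAt_const t (0:ℝ)).congr_of_eventuallyEq h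
  · have h := (hU.deriv n t hn ht.le).hasDerivAt (Ici_mem_nhds ht)
    simpa [dU] using h

lemma hasDeriv_last (hU : Trunc L g k N a U) {t : ℝ} (ht : 0 < t) :
    HasDerivAt (U (N + 1)) (dU L g k U N t) t := by
  have h : U (N + 1) =ᶠ[𝓝 t] U N := by
    filter_upwards [lt_mem_nhds ht] with s hs
    exact hU.last s hs.le
  exact (hasDeriv_U hU le_rfl ht).congr_of_eventuallyEq h

lemma cont_U (hU : Trunc L g k N a U) {n : ℕ} (hn : n ≤ N + 1) : ContinuousOn (U n) (Ici 0) := by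
  have h : ∀ n, n ≤ N → ContinuousOn (U n) (Ici 0) := by
    intro n hn
    rcases n with _ | n
    · exact continuousOn_const.congr (fun t ht => hU.zero t ht)
    · exact fun t ht => (hU.deriv n t hn ht).continuousWithinAt
  rcases Nat.lt_or_ge n (N + 1) with h1 | h1
  · exact h n (by omega)
  · obtain rfl : n = N + 1 := by omega
    exact (h N le_rfl).congr (fun t ht => hU.last t ht)

/-- All the bounds at a time at which the constraints hold. -/
lemma facts (hk : 0 < k) (hg : 1 ≤ g) (hM : Bds k a M) (hU : Trunc L g k N a U)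
    {t : ℝ} (ht : 0 ≤ t)
    (h : ∀ j ∈ Finset.range (N + 1) ×ˢ Finset.range 3, 0 ≤ Phi g k M U j t) :
    (∀ n, n ≤ N → U n t ≤ M n) ∧
    (∀ n, n ≤ N → 109/100 * U n t ^ 2 ≤
      M n * (g * U (n + 1) t + 97/100 * k) + 9/100 * M n ^ 2) ∧
    (∀ n, n ≤ N → U (n + 1) t ≤
      19/40 * M n + 21/40 * U n t + 3/50 * k + 53/1000 * (g - 1) * M n) := by
  have hA : ∀ n, n ≤ N → U n t ≤ M n := by
    intro n hn
    have := h (n, 0) (by simp; omega)
    simp only [Phi, if_true] at this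
    linarith
  refine ⟨hA, fun n hn => ?_, fun n hn => ?_⟩
  · have := h (n, 1) (by simp; omega)
    simp only [Phi, one_ne_zero, if_false, if_true] at this
    linarith
  · have := h (n, 2) (by simp; omega)
    simp [Phi] at this
    linarith

end

end Pool.Agent.Q186.DY
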