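import Pool.Agent.Q186.DY.Reg

/-!
# Project DY: the barriers in the original scale
-/

namespace Pool.Agent.Q186.DY

open Set Filter Topology

noncomputable section

theorem LB' {γ k μ ρ Y Z W X L : ℝ} (hL : 4 ≤ L) (hγ : 1 ≤ γ) (hk : 0 < k) (hμ : 0 < μ)
    (hkμ : k ≤ 2 * μ) (hY0 : 0 ≤ Y) (hY1 : Y ≤ μ) (hZ : 0 ≤ Z) (hW0 : 0 ≤ W) (hW1 : W ≤ μ)
    (hW : W ≤ 19/40*μ + 21/40*Z + 3/50*k + 53/1000*(γ-1)*μ)
    (heq : μ*(γ*Z + 97/100*k) = 109/100*Y^2 - 9/100*μ^2)
    (hX0 : 0 ≤ X) (hρ0 : μ ≤ ρ) (hρ1 : ρ ≤ μ + k/100) (hX1 : X ≤ ρ)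
    (hX2 : 109/100*X^2 ≤ ρ*(γ*Y + 97/100*k) + 9/100*ρ^2) :
    109/50*Y*(X^2 - Y*(γ*Z+k)) < L*(γ*(μ*(Y^2 - Z*(γ*W+k)))) := by
  obtain ⟨y, hy⟩ : ∃ y, y = Y/μ := ⟨_, rfl⟩
  obtain ⟨z, hz⟩ : ∃ z, z = Z/μ := ⟨_, rfl⟩
  obtain ⟨w, hw⟩ : ∃ w, w = W/μ := ⟨_, rfl⟩
  obtain ⟨x, hx⟩ : ∃ x, x = X/μ := ⟨_, rfl⟩
  obtain ⟨κ, hκ⟩ : ∃ κ, κ = k/μ := ⟨_, rfl⟩
  obtain ⟨r, hr⟩ : ∃ r, r = ρ/μ := ⟨_, rfl⟩
  have hY : Y = μ*y := by rw [hy]; field_simp
  have hZ' : Z = μ*z := by rw [hz]; field_simp
  have hW' : W = μ*w := by rw [hw]; field_simp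
  have hX' : X = μ*x := by rw [hx]; field_simp
  have hk' : k = μ*κ := by rw [hκ]; field_simp
  have hr' : ρ = μ*r := by rw [hr]; field_simp
  have hy0 : 0 ≤ y := by rw [hy]; positivity
  have hz0 : 0 ≤ z := by rw [hz]; positivity
  have hw0 : 0 ≤ w := by rw [hw]; positivity
  have hx0 : 0 ≤ x := by rw [hx]; positivity
  have hκ0 : 0 < κ := by rw [hκ]; positivity
  have hy1 : y ≤ 1 := by rw [hy]; exact (div_le_one hμ).2 hY1
  have hw1 : w ≤ 1 := by rw [hw]; exact (div_le_one hμ).2 hW1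
  have hκ2 : κ ≤ 2 := by rw [hκ]; exact (div_le_iff₀ hμ).2 hkμ
  have hr0 : 1 ≤ r := by rw [hr]; exact (one_le_div hμ).2 hρ0
  have hr1 : r ≤ 1 + κ/100 := by
    rw [hr, div_le_iff₀ hμ]; rw [hk'] at hρ1; linarith
  have hxr : x ≤ r := by rw [hx, hr]; exact div_le_div_of_nonneg_right hX1 hμ.le
  rw [hY, hZ', hW', hX', hk']
  have hw2 : w ≤ 19/40 + 21/40*z + 3/50*κ + 53/1000*(γ-1) := by
    rw [hW', hZ', hk'] at hW
    have : μ*w ≤ μ*(19/40 + 21/40*z + 3/50*κ + 53/1000*(γ-1)) := by linarith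
    exact le_of_mul_le_mul_left this hμ
  have heq2 : γ*z + 97/100*κ = 109/100*y^2 - 9/100 := by
    rw [hY, hZ', hk'] at heq
    have : μ^2*(γ*z + 97/100*κ) = μ^2*(109/100*y^2 - 9/100) := by linarith
    exact mul_left_cancel₀ (by positivity) this
  have hr2 : r^2 ≤ 1 + 3/100*κ := by nlinarith
  have hx2 : x^2 ≤ r^2 := pow_le_pow_left₀ hx0 hxr 2
  have hxb : 109/100*x^2 ≤ r*(γ*y + 97/100*κ) + 9/100*r^2 := by
    rw [hX', hr', hY, hk'] at hX2
    have : μ^2*(109/100*x^2) ≤ μ^2*(r*(γ*y + 97/100*κ) + 9/100*r^2) := by linarith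
    exact le_of_mul_le_mul_left this (by positivity)
  have key := LB (L := L) (x2 := x^2) hL hγ hκ0 hy0 hy1 hz0 hw0 hw1 hw2 heq2
    (by linarith) (by
      intro hle
      have h0 : 0 ≤ γ*y + 97/100*κ := by positivity
      have h1 : r*(γ*y + 97/100*κ) ≤ r^2*(γ*y + 97/100*κ) := by
        apply mul_le_mul_of_nonneg_right _ h0
        nlinarith
      have h2 : (r^2-1)*(γ*y + 97/100*κ) ≤ (3/100*κ)*1 := by
        apply mul_le_mul (by linarith) hle h0 (by positivity)
      nlinarith)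
  have h3 : 0 < μ^3 := by positivity
  have := mul_lt_mul_of_pos_left key h3
  calc 109/50*(μ*y)*((μ*x)^2 - μ*y*(γ*(μ*z)+μ*κ))
      = μ^3*(109/50*y*(x^2 - y*(γ*z+κ))) := by ring
    _ < μ^3*(L*(γ*(y^2 - z*(γ*w+κ)))) := this
    _ = _ := by ring

theorem UB' {γ k μ ρ m Y Z W X L : ℝ} (hL : 4 ≤ L) (hγ : 1 ≤ γ) (hk : 0 < k) (hμ : 0 < μ)
    (hY0 : 0 ≤ Y) (hZ0 : 0 ≤ Z) (hZ1 : Z ≤ μ) (hm : 0 < m) (hmμ : m ≤ μ)
    (heq : Z = 19/40*μ + 21/40*Y + 3/50*k + 53/1000*(γ-1)*μ)
    (hW : 109/100*Z^2 ≤ m*(γ*W + 97/100*k) + 9/100*m^2)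
    (hX0 : 0 ≤ X) (hρ0 : μ ≤ ρ) (hρ1 : ρ ≤ μ + k/100)
    (hX : Y ≤ 19/40*ρ + 21/40*X + 3/50*k + 53/1000*(γ-1)*ρ) :
    L*(Y^2 - Z*(γ*W+k)) < 21/40*(X^2 - Y*(γ*Z+k)) := by
  obtain ⟨y, hy⟩ : ∃ y, y = Y/μ := ⟨_, rfl⟩
  obtain ⟨z, hz⟩ : ∃ z, z = Z/μ := ⟨_, rfl⟩
  obtain ⟨x, hx⟩ : ∃ x, x = X/μ := ⟨_, rfl⟩
  obtain ⟨κ, hκ⟩ : ∃ κ, κ = k/μ := ⟨_, rfl⟩
  obtain ⟨pn, hpn⟩ : ∃ pn, pn = (γ*W+k)/μ := ⟨_, rfl⟩
  have hY : Y = μ*y := by rw [hy]; field_simp
  have hZ' : Z = μ*z := by rw [hz]; field_simp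
  have hX' : X = μ*x := by rw [hx]; field_simp
  have hk' : k = μ*κ := by rw [hκ]; field_simp
  have hp' : γ*W+k = μ*pn := by rw [hpn]; field_simp
  have hy0 : 0 ≤ y := by rw [hy]; positivity
  have hz0 : 0 ≤ z := by rw [hz]; positivity
  have hx0 : 0 ≤ x := by rw [hx]; positivity
  have hκ0 : 0 < κ := by rw [hκ]; positivity
  have hz1 : z ≤ 1 := by rw [hz]; exact (div_le_one hμ).2 hZ1
  have heq2 : z = 19/40 + 21/40*y + 3/50*κ + 53/1000*(γ-1) := by
    rw [hY, hZ', hk'] at heq
    have : μ*z = μ*(19/40 + 21/40*y + 3/50*κ + 53/1000*(γ-1)) := by linarith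
    exact mul_left_cancel₀ hμ.ne' this
  have hpl : 109/100*z^2 - 9/100 + 3/100*κ ≤ pn := by
    -- divide by m, then by μ
    have h1 : 109/100*Z^2/m - 9/100*m ≤ γ*W + 97/100*k := by
      rw [sub_le_iff_le_add, div_le_iff₀ hm]; nlinarith
    have h2 : 109/100*Z^2/μ ≤ 109/100*Z^2/m := by
      apply div_le_div_of_nonneg_left (by positivity) hm hmμ
    have h3 : μ*(109/100*z^2 - 9/100 + 3/100*κ) ≤ μ*pn := by
      rw [← hp']
      have h4 : 109/100*Z^2/μ = μ*(109/100*z^2) := by rw [hZ']; field_simp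
      have h5 : μ*κ = k := hk'.symm
      rw [h4] at h2
      nlinarith
    exact le_of_mul_le_mul_left h3 hμ
  have hxl : y ≤ 19/40 + 53/1000*(γ-1) + 7/100*κ + 21/40*x := by
    have h1 : 19/40 + 53/1000*(γ-1) ≤ 1 := by nlinarith
    have h2 : (19/40 + 53/1000*(γ-1))*ρ ≤ (19/40 + 53/1000*(γ-1))*μ + k/100 := by
      have h3 : 0 ≤ 19/40 + 53/1000*(γ-1) := by linarith
      have h4 : (19/40 + 53/1000*(γ-1))*(ρ-μ) ≤ 1*(k/100) :=
        mul_le_mul h1 (by linarith) (by linarith) (by norm_num)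
      linarith
    have h5 : μ*y ≤ μ*(19/40 + 53/1000*(γ-1) + 7/100*κ + 21/40*x) := by
      rw [← hY]
      rw [hX'] at hX
      have h6 : μ*κ = k := hk'.symm
      nlinarith
    exact le_of_mul_le_mul_left h5 hμ
  have key := UB (L := L) (x := x) hL hγ hκ0 hy0 hz1 hz0 heq2 hpl hx0 hxl
  rw [hp', hY, hZ', hX', hk']
  have h3 : 0 < μ^2 := by positivity
  have := mul_lt_mul_of_pos_left key h3
  calc L*((μ*y)^2 - μ*z*(μ*pn)) = μ^2*(L*(y^2 - z*pn)) := by ring
    _ < μ^2*(21/40*(x^2 - y*(γ*z+κ))) := this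
    _ = _ := by ring

variable {L g k : ℝ} {N : ℕ} {a : ℕ → ℝ} {U : ℕ → ℝ → ℝ} {M : ℕ → ℝ}

lemma barrier_ok (hL : 4 ≤ L) (hg : 1 ≤ g) (hk : 0 < k) (hM : Bds k a M)
    (hU : Trunc L g k N a U) {t : ℝ} (ht : 0 < t) (i : ℕ × ℕ)
    (hi : i ∈ Finset.range (N + 1) ×ˢ Finset.range 3)
    (h : ∀ j ∈ Finset.range (N + 1) ×ˢ Finset.range 3, 0 ≤ Phi g k M U j t)
    (h0 : Phi g k M U i t = 0) :
    ∃ d, 0 < d ∧ HasDerivWithinAt (Phi g k M U i) d (Iic t) t := by
  obtain ⟨hA, hB, hC⟩ := facts hk hg hM hU ht.le h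
  have hMpos : ∀ n, 0 < M n := fun n => lt_of_lt_of_le (by positivity) (hM.low n)
  have hUnn : ∀ n, n ≤ N + 1 → 0 ≤ U n t := fun n hn => hU.nonneg n t ht.le hn
  have hU0 : U 0 t = 0 := hU.zero t ht.le
  have hLpos : (0:ℝ) < L := by linarith
  have hlast : U (N + 1) t = U N t := hU.last t ht.le
  have hkM : ∀ n, k ≤ 2 * M n := fun n => by linarith [hM.low n]
  obtain ⟨n, j⟩ := i
  simp only [Finset.mem_product, Finset.mem_range] at hi
  obtain ⟨hn, hj⟩ := hi
  have hn' : n ≤ N := by omega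
  interval_cases j
  · -- constraint A
    simp only [Phi, if_true] at h0
    rcases n with _ | m
    · have := hMpos 0; rw [hU0] at h0; linarith
    refine ⟨-dU L g k U (m + 1) t, ?_, ?_⟩
    · have e : dU L g k U (m + 1) t =
          L ^ m * (U m t ^ 2 - U (m + 1) t * (g * U (m + 2) t + k)) := by simp [dU]
      rw [e]
      have h1 : U (m + 1) t = M (m + 1) := by linarith
      have h2 := hB (m + 1) hn'
      rw [h1] at h2
      have h3 : U m t ≤ M (m + 1) + k / 100 := (hA m (by omega)).trans (hM.step m)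
      have h4 : U m t ^ 2 ≤ (M (m + 1) + k / 100) ^ 2 :=
        pow_le_pow_left₀ (hUnn m (by omega)) h3 2
      have h5 := hkM (m + 1)
      have h6 := hMpos (m + 1)
      have h7 : U m t ^ 2 - U (m + 1) t * (g * U (m + 2) t + k) < 0 := by
        rw [h1]; nlinarith
      have h8 : 0 < L ^ m := by positivity
      nlinarith
    · have h1 := (hasDeriv_U hU hn' ht).const_sub (M (m + 1))
      have h2 : Phi g k M U (m + 1, 0) = fun s => M (m + 1) - U (m + 1) s := by
        funext s; simp [Phi]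
      rw [h2]
      exact h1.hasDerivWithinAt
  · -- constraint B
    simp only [Phi, one_ne_zero, if_false, if_true] at h0
    rcases n with _ | m
    · exfalso
      rw [hU0] at h0
      have h1 := hMpos 0
      have h2 := hUnn 1 (by omega)
      have h3 : 0 < M 0 * (g * U (0 + 1) t + 97/100 * k) := by
        apply mul_pos h1
        have : 0 ≤ g * U (0 + 1) t := mul_nonneg (by linarith) h2
        nlinarith
      nlinarith [sq_nonneg (M 0)]
    rcases Nat.lt_or_ge (m + 1) N with hlt | hge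
    · refine ⟨M (m + 1) * (g * dU L g k U (m + 2) t) - 109/100 * (2 * U (m + 1) t * dU L g k U (m + 1) t),
        ?_, ?_⟩
      · have e1 : dU L g k U (m + 1) t =
          L ^ m * (U m t ^ 2 - U (m + 1) t * (g * U (m + 2) t + k)) := by simp [dU]
        have e2 : dU L g k U (m + 2) t =
          L ^ m * (L * (U (m + 1) t ^ 2 - U (m + 2) t * (g * U (m + 3) t + k))) := by
          simp [dU, pow_succ]; ring
        have hW1 : U (m + 3) t ≤ M (m + 1) := by
          rcases Nat.lt_or_ge (m + 2) N with h3 | h3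
          · exact (hA (m + 3) (by omega)).trans ((hM.anti (m + 2)).trans (hM.anti (m + 1)))
          · have h4 : m + 3 = N + 1 := by omega
            rw [h4, hlast]
            have h5 : N = m + 2 := by omega
            rw [h5]
            exact (hA (m + 2) (by omega)).trans (hM.anti (m + 1))
        have hCm := hC (m + 2) (by omega)
        have hanti := hM.anti (m + 1)
        have hW2 : U (m + 3) t ≤ 19/40 * M (m + 1) + 21/40 * U (m + 2) t + 3/50 * k
            + 53/1000 * (g - 1) * M (m + 1) := by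
          have h5 : 53/1000 * (g - 1) * M (m + 2) ≤ 53/1000 * (g - 1) * M (m + 1) :=
            mul_le_mul_of_nonneg_left hanti (by linarith)
          have e3 : m + 1 + 1 = m + 2 := rfl
          rw [e3] at hanti
          linarith
        have key := LB' (L := L) (γ := g) (k := k) (μ := M (m + 1)) (ρ := M m)
          (Y := U (m + 1) t) (Z := U (m + 2) t) (W := U (m + 3) t) (X := U m t)
          hL hg hk (hMpos _) (hkM _) (hUnn _ (by omega)) (hA _ hn') (hUnn _ (by omega))
          (hUnn _ (by omega)) hW1 hW2 (by linarith) (hUnn _ (by omega)) (hM.anti m)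
          (hM.step m) (hA m (by omega)) (by have := hB m (by omega); exact this)
        rw [e1, e2]
        have h8 : 0 < L ^ m := by positivity
        have h9 := mul_lt_mul_of_pos_left key h8
        linarith
      · have h1 := hasDeriv_U hU (n := m + 2) (by omega) ht
        have h2 := hasDeriv_U hU (n := m + 1) (by omega) ht
        have h3 := (((h1.const_mul g).add_const (97/100 * k)).const_mul (M (m + 1))).sub
          ((h2.pow 2).const_mul (109/100))
        have h4 := h3.add_const (9/100 * M (m + 1) ^ 2)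
        have h5 : Phi g k M U (m + 1, 1) = fun s => M (m + 1) * (g * U (m + 2) s + 97/100 * k)
            - 109/100 * U (m + 1) s ^ 2 + 9/100 * M (m + 1) ^ 2 := by
          funext s; simp [Phi]
        rw [h5]
        refine (HasDerivAt.hasDerivWithinAt ?_)
        convert h4 using 1 <;> norm_num
    · exfalso
      have h3 : m + 1 = N := by omega
      have h4 : U (m + 1 + 1) t = U (m + 1) t := by rw [h3]; exact hlast
      rw [h4] at h0
      have h5 := hA (m + 1) hn'
      have h6 := hUnn (m + 1) (by omega)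
      have h7 := hMpos (m + 1)
      have h8 : M (m + 1) * (U (m + 1) t) ≤ M (m + 1) * (g * U (m + 1) t) := by
        apply mul_le_mul_of_nonneg_left _ h7.le
        nlinarith
      have h9 : 0 < M (m + 1) * k := mul_pos h7 hk
      nlinarith [mul_nonneg (sub_nonneg.2 h5) h6, mul_nonneg (sub_nonneg.2 h5) h7.le]
  · -- constraint C
    have h0' : 19/40 * M n + 21/40 * U n t + 3/50 * k + 53/1000 * (g - 1) * M n
        - U (n + 1) t = 0 := by simpa [Phi] using h0
    rcases Nat.lt_or_ge n N with hlt | hge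
    · refine ⟨21/40 * dU L g k U n t - dU L g k U (n + 1) t, ?_, ?_⟩
      · rcases n with _ | m
        · have e1 : dU L g k U 0 t = 0 := by simp [dU]
          have e2 : dU L g k U (0 + 1) t = - (U 1 t * (g * U 2 t + k)) := by
            simp [dU, hU0]
          rw [e1, e2]
          rw [hU0] at h0'
          have h1 := hMpos 0
          have h2 : 0 < U 1 t := by
            have h3 : 0 ≤ 53/1000 * (g - 1) * M 0 := by
              apply mul_nonneg (by linarith) h1.le
            have e0 : U (0 + 1) t = U 1 t := rfl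
            rw [e0] at h0'
            linarith
          have h3 := hUnn 2 (by omega)
          have h4 : 0 < g * U 2 t + k := by
            have : 0 ≤ g * U 2 t := mul_nonneg (by linarith) h3
            linarith
          have := mul_pos h2 h4
          linarith
        · have e1 : dU L g k U (m + 1) t =
            L ^ m * (U m t ^ 2 - U (m + 1) t * (g * U (m + 2) t + k)) := by simp [dU]
          have e2 : dU L g k U (m + 1 + 1) t =
            L ^ m * (L * (U (m + 1) t ^ 2 - U (m + 2) t * (g * U (m + 3) t + k))) := by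
            simp [dU, pow_succ]; ring
          have key := UB' (L := L) (γ := g) (k := k) (μ := M (m + 1)) (ρ := M m)
            (m := M (m + 2)) (Y := U (m + 1) t) (Z := U (m + 2) t) (W := U (m + 3) t)
            (X := U m t) hL hg hk (hMpos _) (hUnn _ (by omega)) (hUnn _ (by omega))
            ((hA (m + 2) (by omega)).trans (hM.anti (m + 1))) (hMpos _) (hM.anti (m + 1))
            (by have e0 : U (m + 1 + 1) t = U (m + 2) t := rfl
                rw [e0] at h0'
                linarith) (hB (m + 2) (by omega)) (hUnn _ (by omega)) (hM.anti m)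
            (hM.step m) (by have := hC m (by omega); linarith)
          rw [e1, e2]
          have h8 : 0 < L ^ m := by positivity
          have h9 := mul_lt_mul_of_pos_left key h8
          linarith
      · have h1 := hasDeriv_U hU (n := n + 1) (by omega) ht
        have h2 := hasDeriv_U hU (n := n) (by omega) ht
        have h3 := (((h2.const_mul (21/40)).const_add (19/40 * M n)).add_const (3/50 * k
          + 53/1000 * (g - 1) * M n)).sub h1
        have h5 : Phi g k M U (n, 2) = fun s => 19/40 * M n + 21/40 * U n s + (3/50 * k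
            + 53/1000 * (g - 1) * M n) - U (n + 1) s := by
          funext s; simp [Phi]; ring
        rw [h5]
        exact h3.hasDerivWithinAt
    · exfalso
      obtain rfl : n = N := by omega
      rw [hlast] at h0'
      have h5 := hA n hn'
      have h7 := hMpos n
      have h8 : 0 ≤ 53/1000 * (g - 1) * M n := by
        apply mul_nonneg (by linarith) h7.le
      linarith

theorem t_REG : P_BAR → P_REG := by
  intro hbar L g k a hL hg hk ha h0
  obtain ⟨M, M0, N2, hM, hM0, hN2⟩ := exists_bds hk ha h0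
  refine ⟨M0, N2, fun N U hN hU n t hn ht => ?_⟩
  have hMpos : ∀ n, 0 < M n := fun n => lt_of_lt_of_le (by positivity) (hM.low n)
  have key := hbar (ℕ × ℕ) (Finset.range (N + 1) ×ˢ Finset.range 3) (Phi g k M U) t ht ?_ ?_ ?_
    t ht le_rfl
  · have h1 : U n t < M n := by
      have := key (n, 0) (by simp; omega)
      simp only [Phi, if_true] at this
      linarith
    refine ⟨h1.le.trans (hM0 n), fun h2 => ?_⟩
    rw [← hN2 n h2]; exact h1.le
  · rintro ⟨m, j⟩ hi
    simp only [Finset.mem_product, Finset.mem_range] at hi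
    obtain ⟨hm, hj⟩ := hi
    have c1 : ContinuousOn (U m) (Icc 0 t) :=
      (cont_U hU (by omega)).mono Icc_subset_Ici_self
    have c2 : ContinuousOn (U (m + 1)) (Icc 0 t) :=
      (cont_U hU (by omega)).mono Icc_subset_Ici_self
    interval_cases j
    · have h5 : Phi g k M U (m, 0) = fun s => M m - U m s := by funext s; simp [Phi]
      rw [h5]; fun_prop
    · have h5 : Phi g k M U (m, 1) = fun s => M m * (g * U (m + 1) s + 97/100 * k)
            - 109/100 * U m s ^ 2 + 9/100 * M m ^ 2 := by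
        funext s; simp [Phi]
      rw [h5]; fun_prop
    · have h5 : Phi g k M U (m, 2) = fun s => 19/40 * M m + 21/40 * U m s + 3/50 * k
            + 53/1000 * (g - 1) * M m - U (m + 1) s := by
        funext s; simp [Phi]
      rw [h5]; fun_prop
  · rintro ⟨m, j⟩ hi
    simp only [Finset.mem_product, Finset.mem_range] at hi
    obtain ⟨hm, hj⟩ := hi
    have hdat : ∀ n, n ≤ N → U n 0 ≤ M n / 4 := by
      intro n hn
      rcases Nat.eq_zero_or_pos n with rfl | h
      · rw [hU.zero 0 le_rfl]; have := hMpos 0; positivity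
      · rw [hU.init n h hn]; exact hM.data n
    have hdat' : U (m + 1) 0 ≤ M m / 4 := by
      rcases Nat.lt_or_ge m N with h | h
      · have h1 := hdat (m + 1) (by omega)
        have h2 := hM.anti m
        linarith
      · have : m = N := by omega
        subst this
        rw [hU.last 0 le_rfl]; exact hdat m le_rfl
    have h1 := hdat m (by omega)
    have h2 : 0 ≤ U m 0 := hU.nonneg m 0 le_rfl (by omega)
    have h3 : 0 ≤ U (m + 1) 0 := hU.nonneg (m + 1) 0 le_rfl (by omega)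
    have h4 := hMpos m
    interval_cases j
    · simp only [Phi, if_true]; linarith
    · simp only [Phi, one_ne_zero, if_false, if_true]
      have h5 : U m 0 ^ 2 ≤ (M m / 4) ^ 2 := pow_le_pow_left₀ h2 h1 2
      have h6 : 0 ≤ g * U (m + 1) 0 := mul_nonneg (by linarith) h3
      have h7 : 0 < M m * (g * U (m + 1) 0 + 97/100 * k) := by positivity
      nlinarith [sq_pos_of_pos h4]
    · have h5 : 0 ≤ 53/1000 * (g - 1) * M m := by
        apply mul_nonneg (by linarith) h4.le
      have : 0 < 19/40 * M m + 21/40 * U m 0 + 3/50 * k + 53/1000 * (g - 1) * M m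
          - U (m + 1) 0 := by linarith
      simpa [Phi] using this
  · intro s hs0 hst i hi hj h0
    exact barrier_ok hL hg hk hM hU hs0 i hi hj h0

end

end Pool.Agent.Q186.DY
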