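import Pool.Agent.Q186.DY.Main

/-!
MP_a38b17_an, Q1 for the dyadic model of the Navier-Stokes equations (Katz-Pavlovic,
Desnyansky-Novikov): energy equality of all solutions, existence, uniqueness, smoothness.

The model, for the shell amplitudes `X_0, X_1, …` with viscosity `ν > 0` and shell ratio `λ`:

`X_n' = - ν λ^(2n) X_n + λ^(β(n-1)) X_(n-1)^2 - λ^(β n) X_n X_(n+1)`, `X_n(0) = a_n`

(no middle term for `n = 0`), with nonnegative data of finite energy `∑ a_n^2`. The number `β`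
measures the strength of the transfer of energy; `β = 5/2` is the value of the three dimensional and
`β = 3` the value of the four dimensional Navier-Stokes equations, and for `β > 3` smooth solutions
blow up (Cheskidov). A solution is, as in the literature, any sequence of functions on `[0,∞)` which
satisfies the equations; the energy inequality is not assumed.

Theorem. Let `λ ≥ 2`, `β ≤ 3`, `ν > 0`, `a_n ≥ 0`, `∑ a_n^2 < ∞`. Then there is one and only one
solution. It is nonnegative, and for positive times it is smooth: for all `s` and all `t₀ > 0`,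
`λ^(s n) X_n(t)` is bounded, uniformly in `n` and `t ≥ t₀`. It satisfies the energy equality
`∑ X_n(t)^2 + 2 ν ∫_0^t ∑ λ^(2n) X_n(r)^2 dr = ∑ a_n^2` for all `t ≥ 0`. If the data are smooth
(`λ^(s n) a_n` is bounded for every `s`) then the solution is smooth uniformly up to time `0`.
-/

set_option autoImplicit false

namespace Pool.Agent.Q186.DY.Thm

open MeasureTheory

/-- The right hand side of the dyadic model,
`- ν λ^(2n) X_n + λ^(β(n-1)) X_(n-1)^2 - λ^(β n) X_n X_(n+1)` (the middle term is absent for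
`n = 0`). -/
noncomputable def rhs (lam β ν : ℝ) (X : ℕ → ℝ → ℝ) (n : ℕ) (t : ℝ) : ℝ :=
  -(ν * lam ^ (2 * n) * X n t)
    + (if n = 0 then 0 else lam ^ (β * ((n : ℝ) - 1)) * X (n - 1) t ^ 2)
    - lam ^ (β * (n : ℝ)) * X n t * X (n + 1) t

/-- `X` is a solution of the dyadic model on `[0,∞)` with data `a`: every component is
differentiable on `[0,∞)` (one-sided at `0`) and satisfies its equation. -/
structure IsSol (lam β ν : ℝ) (a : ℕ → ℝ) (X : ℕ → ℝ → ℝ) : Prop where
  init : ∀ n, X n 0 = a n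
  ode : ∀ n t, 0 ≤ t → HasDerivWithinAt (X n) (rhs lam β ν X n t) (Set.Ici 0) t

/-- Energy equality at time `t`: the energy is finite, the dissipation is finite for positive times
and integrable on `[0,t]`, and energy plus dissipated energy is the energy of the data. -/
def EnergyEquality (lam ν : ℝ) (a : ℕ → ℝ) (X : ℕ → ℝ → ℝ) (t : ℝ) : Prop :=
  Summable (fun n => X n t ^ 2) ∧
    (∀ r, 0 < r → Summable (fun n => lam ^ (2 * n) * X n r ^ 2)) ∧
    IntervalIntegrable (fun r => ∑' n, lam ^ (2 * n) * X n r ^ 2) volume 0 t ∧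
    ∑' n, X n t ^ 2 + 2 * ν * ∫ r in (0:ℝ)..t, ∑' n, lam ^ (2 * n) * X n r ^ 2 = ∑' n, a n ^ 2

theorem result (lam β ν : ℝ) (hlam : 2 ≤ lam) (hβ : β ≤ 3) (hν : 0 < ν) (a : ℕ → ℝ)
    (ha : ∀ n, 0 ≤ a n) (ha2 : Summable fun n => a n ^ 2) :
    -- existence and uniqueness
    (∃ X : ℕ → ℝ → ℝ, IsSol lam β ν a X) ∧
    (∀ X Y : ℕ → ℝ → ℝ, IsSol lam β ν a X → IsSol lam β ν a Y → ∀ n t, 0 ≤ t → X n t = Y n t) ∧
    -- properties of every solution
    ∀ X : ℕ → ℝ → ℝ, IsSol lam β ν a X →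
      (∀ n t, 0 ≤ t → 0 ≤ X n t) ∧
      -- energy equality
      (∀ t, 0 ≤ t → EnergyEquality lam ν a X t) ∧
      -- smoothness for positive times
      (∀ s t₀ : ℝ, 0 < t₀ → ∃ C : ℝ, ∀ (n : ℕ) (t : ℝ), t₀ ≤ t →
        lam ^ (s * (n : ℝ)) * X n t ≤ C) ∧
      -- smoothness up to time zero for smooth data
      ((∀ s : ℝ, ∃ C : ℝ, ∀ n : ℕ, lam ^ (s * (n : ℝ)) * a n ≤ C) →
        ∀ s : ℝ, ∃ C : ℝ, ∀ (n : ℕ) (t : ℝ), 0 ≤ t → lam ^ (s * (n : ℝ)) * X n t ≤ C) := by
  obtain ⟨X, hX, huniq, hnn, hsm, hen, hdis, hdec⟩ :=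
    Pool.Agent.Q186.DY.main lam β ν hlam hβ hν a ha ha2
  have conv : ∀ Y : ℕ → ℝ → ℝ, IsSol lam β ν a Y → ∀ n t, 0 ≤ t → Y n t = X n t :=
    fun Y hY => huniq Y ⟨hY.init, hY.ode⟩
  refine ⟨⟨X, hX.init, hX.ode⟩, fun Y Z hY hZ n t ht => by rw [conv Y hY n t ht, conv Z hZ n t ht],
    fun Y hY => ⟨fun n t ht => by rw [conv Y hY n t ht]; exact hnn n t ht, fun t ht => ?_,
      fun s t₀ ht₀ => ?_, fun h s => ?_⟩⟩
  · have e : ∀ r, 0 ≤ r → (fun n => Y n r) = fun n => X n r :=
      fun r hr => funext fun n => conv Y hY n r hr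
    have e1 : ∀ r, 0 ≤ r → (fun n => Y n r ^ 2) = fun n => X n r ^ 2 :=
      fun r hr => funext fun n => by rw [conv Y hY n r hr]
    have e2 : ∀ r, 0 ≤ r → (fun n => lam ^ (2 * n) * Y n r ^ 2)
        = fun n => lam ^ (2 * n) * X n r ^ 2 :=
      fun r hr => funext fun n => by rw [conv Y hY n r hr]
    have e3 : ∫ r in (0:ℝ)..t, ∑' n, lam ^ (2 * n) * Y n r ^ 2
        = ∫ r in (0:ℝ)..t, ∑' n, lam ^ (2 * n) * X n r ^ 2 := by
      apply intervalIntegral.integral_congr
      intro r hr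
      rw [Set.uIcc_of_le ht] at hr
      simp only [e2 r hr.1]
    obtain ⟨h1, h2, h3⟩ := hen t ht
    refine ⟨by rw [e1 t ht]; exact h1, fun r hr => by rw [e2 r hr.le]; exact hdis r hr, ?_, ?_⟩
    · refine h2.congr ?_
      rw [Set.uIoc_of_le ht]
      intro r hr
      simp only [e2 r hr.1.le]
    · rw [e1 t ht, e3]
      exact h3
  · obtain ⟨C, hC⟩ := hsm s t₀ ht₀
    exact ⟨C, fun n t ht => by rw [conv Y hY n t (by linarith)]; exact hC n t ht⟩
  · obtain ⟨C, hC⟩ := hdec h s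
    exact ⟨C, fun n t ht => by rw [conv Y hY n t ht]; exact hC n t ht⟩

end Pool.Agent.Q186.DY.Thm
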